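import Pool.Agent.R900.PT.Defs

/-!
# Consequences of the conjecture of Tate and Beilinson
-/

set_option autoImplicit false

namespace Pool.Agent.R900.PT

open Pool.Agent.W495.FM

variable {Ω V : Type} [Field Ω] {T : Homology Ω V} {X : V}

theorem inj_of_tb (h : TB T X) (n j : ℤ) : IsInjectiveAt T X n j := (h n j).2.1

theorem surj_of_tb (h : TB T X) (n j : ℤ) : IsSurjectiveAt T X n j := fun e he => ((h n j).1 e).1 he

/-- The regulator is injective on the rational groups. -/
theorem eq_zero_of_reg (h : TB T X) {n j : ℤ} (x : T.M X n j) (hx : T.reg X n j x = 0) : x = 0 := by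
  by_contra h0
  have h1 : LinearIndependent ℚ (fun _ : Fin 1 => x) := by
    rw [linearIndependent_unique_iff]
    exact h0
  have h2 := (h n j).2.1 1 (fun _ => x) h1
  rw [linearIndependent_unique_iff] at h2
  exact h2 hx

theorem m_eq_zero (hT : IsHomology T) (h : TB T X) (hX : IsPure T X) {n j : ℤ} (hn : n ≠ 2 * j)
    (x : T.M X n j) : x = 0 :=
  eq_zero_of_reg h x (hX n j hn _ (hT.frob_reg X n j x))

/-- Parshin's conjecture. -/
theorem parshin (hT : IsHomology T) (h : TB T X) (hX : IsPure T X) (K : ℕ → Type)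
    [∀ m, AddCommGroup (K m)] (hK : IsKTheory T X K) (m : ℕ) (hm : 1 ≤ m) : IsTorsion (K m) := by
  intro x
  obtain ⟨φ, hφ⟩ := hK m
  exact hφ x fun j => m_eq_zero hT h hX (by omega) _

/-- Parshin's conjecture for motivic cohomology. -/
theorem parshin_motivic (hT : IsHomology T) (h : TB T X) (hX : IsPure T X) (d : ℤ)
    (H : ℤ → ℤ → Type) [∀ i n, AddCommGroup (H i n)] (hH : IsMotivicCohomology T X d H) (i n : ℤ)
    (hi : i ≠ 2 * n) : IsTorsion (H i n) := by
  intro x
  obtain ⟨φ, hφ⟩ := hH i n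
  exact hφ x (m_eq_zero hT h hX (by omega) _)

end Pool.Agent.R900.PT
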