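import Pool.Agent.R900.PT.PairDefs
import Pool.Agent.R900.PT.Main

/-!
# Perfectness of the cup product pairing of motivic cohomology
-/

set_option autoImplicit false

namespace Pool.Agent.R900.PT

open Pool.Agent.W495.FM Module

section linear

variable {K A B : Type} [Field K] [AddCommGroup A] [Module K A] [AddCommGroup B] [Module K B]

/-- The bilinear map given by a bilinear function. -/
theorem exists_bilin {b : A → B → K} (h1 : ∀ y, IsLin K fun x => b x y) (h2 : ∀ x, IsLin K (b x)) :
    ∃ φ : A →ₗ[K] B →ₗ[K] K, ∀ x y, φ x y = b x y := by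
  have a1 : ∀ x x' y, b (x + x') y = b x y + b x' y := fun x x' y => by
    obtain ⟨f, hf⟩ := h1 y
    simpa only [hf] using map_add f x x'
  have a2 : ∀ (c : K) x y, b (c • x) y = c * b x y := fun c x y => by
    obtain ⟨f, hf⟩ := h1 y
    simpa only [hf, smul_eq_mul] using map_smul f c x
  have a3 : ∀ x y y', b x (y + y') = b x y + b x y' := fun x y y' => by
    obtain ⟨f, hf⟩ := h2 x
    simpa only [hf] using map_add f y y'
  have a4 : ∀ (c : K) x y, b x (c • y) = c * b x y := fun c x y => by
    obtain ⟨f, hf⟩ := h2 x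
    simpa only [hf, smul_eq_mul] using map_smul f c y
  exact ⟨LinearMap.mk₂ K b a1 a2 a3 a4, fun x y => rfl⟩

theorem isPerfect_of_inj [FiniteDimensional K A] [FiniteDimensional K B] {b : A → B → K}
    (l1 : ∀ y, IsLin K fun x => b x y) (l2 : ∀ x, IsLin K (b x))
    (h1 : ∀ x, (∀ y, b x y = 0) → x = 0) (h2 : ∀ y, (∀ x, b x y = 0) → y = 0) :
    IsPerfect K b := by
  obtain ⟨φ, hφ⟩ := exists_bilin l1 l2
  have i1 : Function.Injective φ := (injective_iff_map_eq_zero φ).2 fun x hx => h1 x fun y => by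
    rw [← hφ, hx]; rfl
  have i2 : Function.Injective φ.flip := (injective_iff_map_eq_zero φ.flip).2 fun y hy =>
    h2 y fun x => by
      have := LinearMap.congr_fun hy x
      rw [← hφ]
      simpa using this
  have d1 : finrank K A ≤ finrank K B := by
    have := LinearMap.finrank_le_finrank_of_injective i1
    rwa [Subspace.dual_finrank_eq] at this
  have d2 : finrank K B ≤ finrank K A := by
    have := LinearMap.finrank_le_finrank_of_injective i2
    rwa [Subspace.dual_finrank_eq] at this
  have s1 : Function.Surjective φ := by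
    refine (LinearMap.injective_iff_surjective_of_finrank_eq_finrank ?_).1 i1
    rw [Subspace.dual_finrank_eq]
    omega
  have s2 : Function.Surjective φ.flip := by
    refine (LinearMap.injective_iff_surjective_of_finrank_eq_finrank ?_).1 i2
    rw [Subspace.dual_finrank_eq]
    omega
  refine ⟨l1, l2, ?_, ?_, inferInstance, inferInstance⟩
  · rintro f ⟨g, hg⟩
    obtain ⟨x, hx⟩ := s1 g
    refine ⟨x, ?_, fun x' hx' => i1 ?_⟩
    · funext y
      rw [hg, ← hx, hφ]
    · ext y
      rw [hx, ← hg, ← hx', hφ]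
  · rintro f ⟨g, hg⟩
    obtain ⟨y, hy⟩ := s2 g
    refine ⟨y, ?_, fun y' hy' => i2 ?_⟩
    · funext x
      rw [hg, ← hy, LinearMap.flip_apply, hφ]
    · ext x
      rw [hy, ← hg, ← hy', LinearMap.flip_apply, hφ]

/-- A perfect pairing is not degenerate. -/
theorem IsPerfect.nondeg {b : A → B → K} (h : IsPerfect K b) (x : A) (hx : ∀ y, b x y = 0) :
    x = 0 := by
  obtain ⟨x₀, -, h2⟩ := h.left (fun _ => 0) ⟨0, fun _ => rfl⟩
  rw [h2 x (by funext y; exact hx y), h2 0]
  funext y
  obtain ⟨f, hf⟩ := h.lin_left y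
  have := hf 0
  simpa using this

theorem IsPerfect.flip {b : A → B → K} (h : IsPerfect K b) : IsPerfect K fun y x => b x y :=
  ⟨h.lin_right, h.lin_left, h.right, h.left, h.finite_right, h.finite_left⟩

theorem isPerfect_of_zero {b : A → B → K} (l1 : ∀ y, IsLin K fun x => b x y)
    (l2 : ∀ x, IsLin K (b x)) (h1 : ∀ x : A, x = 0) (h2 : ∀ y : B, y = 0) : IsPerfect K b := by
  have : Subsingleton A := ⟨fun x y => by rw [h1 x, h1 y]⟩
  have : Subsingleton B := ⟨fun x y => by rw [h2 x, h2 y]⟩
  exact isPerfect_of_inj l1 l2 (fun x _ => h1 x) (fun y _ => h2 y)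

/-- If the eigenvalue one of `F` is semisimple every vector is the sum of an invariant one and of one
of the form `F z - z`. -/
theorem exists_decomp [FiniteDimensional K A] (F : A →ₗ[K] A)
    (hs : ∀ e, F (F e - e) = F e - e → F e = e) (x : A) :
    ∃ y z, F y = y ∧ x = y + (F z - z) := by
  have hc : Submodule.map (F - 1) ⊤ ⊓ LinearMap.ker (F - 1) = ⊥ := by
    rw [eq_bot_iff]
    rintro w ⟨⟨z, -, rfl⟩, hw⟩
    have hw' : (F - 1) ((F - 1) z) = 0 := hw
    simp only [LinearMap.sub_apply, Module.End.one_apply] at hw' ⊢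
    have := hs z (by rw [← sub_eq_zero]; exact hw')
    simp [this]
  have hsum : LinearMap.range (F - 1) ⊔ LinearMap.ker (F - 1) = ⊤ := by
    apply Submodule.eq_top_of_finrank_eq
    have h1 := Submodule.finrank_sup_add_finrank_inf_eq (LinearMap.range (F - 1))
      (LinearMap.ker (F - 1))
    rw [LinearMap.range_eq_map, hc, finrank_bot, ← LinearMap.range_eq_map] at h1
    have h2 := LinearMap.finrank_range_add_finrank_ker (F - 1)
    omega
  obtain ⟨u, ⟨z, rfl⟩, y, hy, h⟩ := Submodule.mem_sup.1 (hsum ▸ Submodule.mem_top : x ∈ _)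
  rw [LinearMap.mem_ker] at hy
  simp only [LinearMap.sub_apply, Module.End.one_apply] at hy h
  exact ⟨y, z, sub_eq_zero.1 hy, by rw [← h]; abel⟩

end linear

variable {Ω V : Type} [Field Ω] {T : Homology Ω V} {X : V}

/-- The motivic homology is finite-dimensional. -/
theorem finite_of_tb (hT : IsHomology T) (h : TB T X) (n j : ℤ) :
    FiniteDimensional ℚ (T.M X n j) := by
  have := hT.finite X n j
  by_contra hf
  have hinf : ¬ Module.Finite ℚ (T.M X n j) := hf
  have h1 : Cardinal.aleph0 ≤ Module.rank ℚ (T.M X n j) := by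
    by_contra hlt
    exact hinf (Module.rank_lt_aleph0_iff.1 (not_le.1 hlt))
  obtain ⟨s, hs, hli⟩ := le_rank_iff_exists_linearIndependent_finset.1
    ((Cardinal.natCast_le_aleph0 (n := finrank Ω (T.E X n j) + 1)).trans h1)
  let e : Fin (finrank Ω (T.E X n j) + 1) ≃ s := (s.equivFinOfCardEq hs).symm
  have h2 : LinearIndependent ℚ (fun k => ((e k : T.M X n j))) := hli.comp e e.injective
  have h3 := (h n j).2.1 _ _ h2
  have h4 := h3.fintype_card_le_finrank
  simp at h4

/-- An invariant element which is orthogonal to all images of the regulator is zero. -/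
theorem nondeg_left (hT : IsHomology T) (h : TB T X) {n j n' j' : ℤ}
    {β : T.E X n j → T.E X n' j' → Ω} (hβ : IsPerfect Ω β)
    (hF : ∀ x y, β (T.frob X n j x) (T.frob X n' j' y) = β x y) (x : T.M X n j)
    (hx : ∀ y, β (T.reg X n j x) (T.reg X n' j' y) = 0) : x = 0 := by
  have := hT.finite X n' j'
  obtain ⟨F, hF'⟩ := hT.lin X n' j'
  obtain ⟨g, hg⟩ := hβ.lin_right (T.reg X n j x)
  refine eq_zero_of_reg h x (hβ.nondeg _ fun e => ?_)
  obtain ⟨y, z, hy, rfl⟩ := exists_decomp F (fun e he => by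
    rw [← hF']
    refine ((h n' j').2.2 e ?_)
    simpa only [hF'] using he) e
  rw [hg, map_add, map_sub]
  have h1 : g (F z) = g z := by
    rw [← hF' z, ← hg, ← hg]
    conv_lhs => rw [← hT.frob_reg X n j x]
    exact hF _ _
  rw [h1, sub_self, add_zero]
  have h2 : y ∈ Submodule.span Ω (Set.range (T.reg X n' j')) := ((h n' j').1 y).1 (by rw [hF', hy])
  refine Submodule.span_induction ?_ ?_ ?_ ?_ h2
  · rintro _ ⟨w, rfl⟩
    rw [← hg]
    exact hx w
  · exact map_zero _
  · intro u v _ _ hu hv
    rw [map_add, hu, hv, add_zero]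
  · intro c u _ hu
    rw [map_smul, hu, smul_zero]

theorem perfect [CharZero Ω] (hT : IsHomology T) (h : TB T X) {d : ℤ}
    {b : ∀ i n : ℤ, T.M X (2 * d - i) (d - n) → T.M X i n → ℚ}
    (hX : IsSmoothProjective T X d b) (i n : ℤ) : IsPerfect ℚ (b i n) := by
  by_cases hi : i = 2 * n
  · have f1 := finite_of_tb hT h (2 * d - i) (d - n)
    have f2 := finite_of_tb hT h i n
    obtain ⟨β, hβ, hF, hc⟩ := hX.dual i n
    refine isPerfect_of_inj (hX.left i n) (hX.right i n) (fun x hx => ?_) fun y hy => ?_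
    · refine nondeg_left hT h hβ hF x fun y => ?_
      rw [hc, hx y, Rat.cast_zero]
    · refine nondeg_left hT h hβ.flip (fun u v => hF v u) y fun x => ?_
      rw [hc, hy x, Rat.cast_zero]
  · exact isPerfect_of_zero (hX.left i n) (hX.right i n)
      (fun x => m_eq_zero hT h hX.pure (by omega) x) fun y => m_eq_zero hT h hX.pure hi y

end Pool.Agent.R900.PT
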