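import Pool.Agent.W495.FM.SpreadDefs

/-!
# Étale cohomology of cycle complexes in negative weights: definitions
-/

set_option autoImplicit false

namespace Pool.Agent.R900.PT

open Pool.Agent.W495.FM

/-- `X` is separated and of finite type over a finite field, `n < 0`, and `H i = H^i(X_et, ℤ^c(n))`.

* The eigenvalues of Frobenius on `H^i_c(X, ℚ_ℓ)` are algebraic integers, so different from `q ^ n`:
  no element of the dual space `E X i n = H_i(X, ℚ_ℓ(n))` of `H^i_c(X, ℚ_ℓ(n))`, except zero, is
  invariant under the Frobenius.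
* The homomorphisms `H^(i - 1)(X_et, ℚ/ℤ^c(n)) → H^i(X_et, ℤ^c(n)) → H^i(X_et, ℚ^c(n))` form an exact
  sequence; the first group is finite (by the first point, and as its `p`-part is zero), and the last one
  is `M X (- i) n = CH_n(X, - i - 2 n) ⊗ ℚ`. -/
structure IsCycleComplex {Ω V : Type} [Field Ω] (T : Homology Ω V) (X : V) (n : ℤ) (H : ℤ → Type)
    [∀ i, AddCommGroup (H i)] : Prop where
  weight : ∀ i (e : T.E X i n), T.frob X i n e = e → e = 0
  exact : ∀ i, ∃ (F : Type) (_ : Finite F) (δ : F → H i) (φ : H i → T.M X (-i) n),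
    Function.Exact δ φ

end Pool.Agent.R900.PT
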