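import Pool.Agent.W495.FM.SpreadDefs

/-!
# Consequences of the conjecture of Tate and Beilinson: definitions

`Homology Ω V` (see `Pool/Agent/W495/FM/HomDefs.lean`) are data of the motivic homology
`M X n j = H_n^M(X, ℚ(j)) = CH_j(X, n - 2 j) ⊗ ℚ` and of the `ℓ`-adic homology
`E X n j = H_n(X, ℚ_ℓ(j))` of schemes `X : V` of finite type over finite fields.
-/

set_option autoImplicit false

namespace Pool.Agent.R900.PT

open Pool.Agent.W495.FM

variable {Ω V : Type} [Field Ω]

/-- Every element has finite order. -/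
def IsTorsion (A : Type) [AddCommGroup A] : Prop := ∀ x : A, ∃ N : ℕ, 0 < N ∧ N • x = 0

/-- The kernel of the homomorphism consists of elements of finite order. -/
def HasTorsionKernel {A B : Type} [AddCommGroup A] [AddCommGroup B] (φ : A →+ B) : Prop :=
  ∀ x, φ x = 0 → ∃ N : ℕ, 0 < N ∧ N • x = 0

/-- `X` is smooth and projective: by the Weil conjectures (Deligne) the group `H_n(X, ℚ_ℓ(j))` is pure of
weight `2 j - n`, so that for `n ≠ 2 j` no element of it, except zero, is invariant under the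
Frobenius. -/
def IsPure (T : Homology Ω V) (X : V) : Prop :=
  ∀ n j : ℤ, n ≠ 2 * j → ∀ e : T.E X n j, T.frob X n j e = e → e = 0

/-- `K m = K_m(X)` are the algebraic `K`-groups of `X`: the Chern character embeds `K_m(X)`, up to
torsion, into the sum of the groups `CH_j(X, m) ⊗ ℚ = H_{m + 2 j}^M(X, ℚ(j))` (Bloch, Levine). -/
def IsKTheory (T : Homology Ω V) (X : V) (K : ℕ → Type) [∀ m, AddCommGroup (K m)] : Prop :=
  ∀ m : ℕ, ∃ φ : ∀ j : ℤ, K m →+ T.M X (m + 2 * j) j,
    ∀ x, (∀ j, φ j x = 0) → ∃ N : ℕ, 0 < N ∧ N • x = 0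

/-- `H i n = H^i(X, ℤ(n)) = CH^n(X, 2 n - i)` are the motivic cohomology groups of the smooth projective
scheme `X` of pure dimension `d`: up to torsion the group `H^i(X, ℤ(n))` embeds into
`H_{2 d - i}^M(X, ℚ(d - n))`. -/
def IsMotivicCohomology (T : Homology Ω V) (X : V) (d : ℤ) (H : ℤ → ℤ → Type)
    [∀ i n, AddCommGroup (H i n)] : Prop :=
  ∀ i n : ℤ, ∃ φ : H i n →+ T.M X (2 * d - i) (d - n), HasTorsionKernel φ

/-- The regulator `CH_j(X, n - 2 j) ⊗ Ω → H_n(X, ℚ_ℓ(j))` is injective: elements of `CH_j(X, n - 2 j) ⊗ ℚ`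
which are linearly independent over `ℚ` have linearly independent images. -/
def IsInjectiveAt (T : Homology Ω V) (X : V) (n j : ℤ) : Prop :=
  ∀ (r : ℕ) (x : Fin r → T.M X n j), LinearIndependent ℚ x →
    LinearIndependent Ω fun k => T.reg X n j (x k)

/-- The regulator is surjective onto the Frobenius invariants: every invariant element of
`H_n(X, ℚ_ℓ(j))` is a linear combination of images. -/
def IsSurjectiveAt (T : Homology Ω V) (X : V) (n j : ℤ) : Prop :=
  ∀ e : T.E X n j, T.frob X n j e = e → e ∈ Submodule.span Ω (Set.range (T.reg X n j))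

end Pool.Agent.R900.PT
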