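import Pool.Agent.R900.PT.ElemDefs
import Pool.Agent.TH117.GN.Main

/-!
# The conjecture of Tate and Beilinson for schemes generated by abelian varieties with elementary
relations
-/

set_option autoImplicit false

namespace Pool.Agent.R900.PT

open Pool.Agent.W495.TA Pool.Agent.W495.FM Pool.Agent.TH117.GN

variable {p : ℕ} [Fact p.Prime] {ν : PadicAlgCl p ≃+* ℂ} {Ω : Type} [Field Ω] [IsAlgClosed Ω]
  [CharZero Ω] {V : Type} {T : Homology Ω V}

theorem tb_elementary (hT : IsHomology T) {X : V}
    (hX : Generated T (IsElementaryAbelian p ν T) X) : TB T X := by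
  refine tb_generated hT (fun X hX => ?_) hX
  obtain ⟨Y, Z, C, M, g, h1, h2, hC, hM, hX⟩ := hX
  exact tb_abelian hT hC (tateHolds_elem h1 h2 hC) hM hX

end Pool.Agent.R900.PT
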