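import Pool.Agent.W495.FM.HomDefs
import Pool.Agent.TH117.BL.Defs

/-!
# Schemes with the homology of abelian varieties with elementary relations: definitions
-/

set_option autoImplicit false

namespace Pool.Agent.R900.PT

open Pool.Agent.W495.TA Pool.Agent.W495.FM

/-- The groups of motivic and of `ℓ`-adic homology of `X` are those of an abelian variety `Y` which is
isogenous, over an algebraic closure, to a product of a supersingular abelian variety and of powers of
the factors of an abelian variety `Z` whose Frobenius eigenvalues have only elementary relations. -/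
def IsElementaryAbelian {Ω V : Type} [Field Ω] [CharZero Ω] (p : ℕ) [Fact p.Prime]
    (ν : PadicAlgCl p ≃+* ℂ) (T : Homology Ω V) (X : V) : Prop :=
  ∃ (Y Z : RedAV p ν) (C : Cycles Ω Y) (M : Motivic C) (g : ℕ),
    TH117.BL.HasElementaryRelations Z ∧ TH117.BL.IsPowersTimesSupersingular Z Y ∧ IsChow C ∧
      IsMotivic M ∧ IsAbelian T X M g

end Pool.Agent.R900.PT
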