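import Pool.Agent.W495.FM.SpreadDefs

/-!
# The order of an `L`-function and the rank of a group of cycles: definitions
-/

set_option autoImplicit false

namespace Pool.Agent.R900.PT

open Pool.Agent.W495.FM

/-- `L` is the function `L(X, s) = det (1 - F Q ^ (-s) | H^(2 i)_c(X, ℚ_ℓ))⁻¹` of a scheme `X` over the
field with `Q` elements. Here `α k` are the eigenvalues of the geometric Frobenius on `H^(2 i)_c(X, ℚ_ℓ)`
with their multiplicities (we identify the algebraic closure of `ℚ_ℓ` with `ℂ`); as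
`E X (2 i) i = H_(2 i)(X, ℚ_ℓ(i))` is the dual space of `H^(2 i)_c(X, ℚ_ℓ(i))`, the multiplicity of an
eigenvalue `c` of the Frobenius on it is the number of the `k` with `c = Q ^ i / α k`. -/
def IsLFunction {V : Type} (T : Homology ℂ V) (X : V) (Q : ℕ) (i : ℤ) (L : ℂ → ℂ) : Prop :=
  ∃ (r : ℕ) (α : Fin r → ℂ) (φ : Module.End ℂ (T.E X (2 * i) i)),
    (∀ e, φ e = T.frob X (2 * i) i e) ∧
    (∀ c : ℂ, Module.finrank ℂ (φ.maxGenEigenspace c) =
      Nat.card {k : Fin r // c * α k = (Q : ℂ) ^ i}) ∧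
    ∀ s, L s = ∏ k, (1 - α k * (Q : ℂ) ^ (-s))⁻¹

/-- The assertions (a), (b) and the second question for cycles of dimension `i`, with rational
coefficients; `M X (2 i) i = CH_i(X) ⊗ ℚ`. Every Frobenius invariant element of `H_(2 i)(X, ℚ_ℓ(i))` is a
linear combination of classes of cycles; the space `CH_i(X) ⊗ ℚ` is finite-dimensional, and linearly
independent elements of it have linearly independent classes, so that it is the same as `B_i(X) ⊗ ℚ`;
and the order of the pole of `L` at `s = i` is its dimension. -/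
def HoldsAt {V : Type} (T : Homology ℂ V) (X : V) (i : ℤ) (L : ℂ → ℂ) : Prop :=
  (∀ e, T.frob X (2 * i) i e = e → e ∈ Submodule.span ℂ (Set.range (T.reg X (2 * i) i))) ∧
  FiniteDimensional ℚ (T.M X (2 * i) i) ∧
  (∀ (r : ℕ) (x : Fin r → T.M X (2 * i) i), LinearIndependent ℚ x →
    LinearIndependent ℂ fun k => T.reg X (2 * i) i (x k)) ∧
  meromorphicOrderAt L i = ((-Module.finrank ℚ (T.M X (2 * i) i) : ℤ) : WithTop ℤ)

end Pool.Agent.R900.PT
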