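import Pool.Agent.W495.FM.SpreadDefs

/-!
# Étale motivic cohomology in the top weight: definitions
-/

set_option autoImplicit false

namespace Pool.Agent.R900.PT

open Pool.Agent.W495.FM

/-- `X` is smooth, projective and connected, of dimension `d`, over a finite field, and
`H i = H^i(X_et, ℤ(d))`.

* `weight`: the `ℓ`-adic cohomology is pure (Deligne), so that for `i ≠ 0` no element of
  `E X i 0 = H_i(X, ℚ_ℓ) = H^(2 d - i)(X, ℚ_ℓ(d))`, except zero, is invariant under the Frobenius.
* `exact`: the homomorphisms `H^(i - 1)(X_et, ℚ/ℤ(d)) → H^i(X_et, ℤ(d)) → H^i(X_et, ℚ(d))` form an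
  exact sequence; the last group is `M X (2 d - i) 0 = CH^d(X, 2 d - i) ⊗ ℚ`, and for `i ≤ 2 d` the
  first one is finite: it is dual to `H^(2 d + 2 - i)(X_et, ℤ^)` (Poincaré duality over finite fields;
  Milne for the `p`-part), a finite group for weight reasons (Colliot-Thélène, Sansuc, Soulé).
* `top`: the group `H^(2 d)(X_et, ℤ(d)) = CH_0(X)` is finitely generated (Kato, Saito). -/
structure IsTopWeight {Ω V : Type} [Field Ω] (T : Homology Ω V) (X : V) (d : ℤ) (H : ℤ → Type)
    [∀ i, AddCommGroup (H i)] : Prop where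
  weight : ∀ i, i ≠ 0 → ∀ e : T.E X i 0, T.frob X i 0 e = e → e = 0
  exact : ∀ i, i < 2 * d → ∃ (F : Type) (_ : Finite F) (δ : F → H i)
    (φ : H i → T.M X (2 * d - i) 0), Function.Exact δ φ
  top : AddGroup.FG (H (2 * d))

end Pool.Agent.R900.PT
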