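import Pool.Agent.W495.FM.SpreadDefs

/-!
# Unramified cohomology of degree three: definitions
-/

set_option autoImplicit false

namespace Pool.Agent.R900.PT

open Pool.Agent.W495.FM

/-- `X` is smooth and projective, of pure dimension `d`, over a finite field, and
`U = H^3_nr(X, ℚ/ℤ(2))`. Here `H = H^4(X_et, ℤ(2))` and `W = H^4_W(X, ℤ(2))` are étale and Weil-étale
motivic cohomology groups.

* `weight`: the `ℓ`-adic cohomology is pure (Deligne), so that no element of
  `E X (2 d - 2) (d - 2) = H^2(X, ℚ_ℓ(2))`, except zero, is invariant under the Frobenius.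
* `H^2(X, ℚ(2)) → H^4(X_et, ℤ(2)) → H^4_W(X, ℤ(2))` is exact (Geisser); the first group is
  `M X (2 d - 2) (d - 2)`.
* The Weil-étale groups are finitely generated if the regulators for `X` are isomorphisms onto the
  Frobenius invariants and the eigenvalue one is semisimple (Geisser, Kahn).
* The homomorphism `H^4(X_et, ℤ(2)) → H^3_nr(X, ℚ/ℤ(2))` is surjective (Kahn; Colliot-Thélène and
  Kahn); the elements of the last group have finite order. -/
structure IsUnramified {Ω V : Type} [Field Ω] (T : Homology Ω V) (X : V) (d : ℤ) (U : Type)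
    [AddCommGroup U] : Prop where
  weight : ∀ e : T.E X (2 * d - 2) (d - 2), T.frob X (2 * d - 2) (d - 2) e = e → e = 0
  groups : ∃ (H : Type) (_ : AddCommGroup H) (W : Type) (_ : AddCommGroup W)
    (a : T.M X (2 * d - 2) (d - 2) → H) (b : H → W) (c : H → U), a 0 = 0 ∧ IsAdd b ∧ IsAdd c ∧
      Function.Exact a b ∧ (TB T X → AddGroup.FG W) ∧ Function.Surjective c
  torsion : ∀ x : U, ∃ N : ℕ, 0 < N ∧ N • x = 0

end Pool.Agent.R900.PT
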