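import Mathlib
import Pool.Agent.W484.BB.LFun

/-!
# The Euler product of the zeta function of a scheme over a finite field
-/

set_option autoImplicit false

namespace Pool.Agent.R900.PT

open Complex Pool.Agent.W484.BB

/-- The Euler product of the zeta function of a scheme over a finite field. -/
theorem hasProd_zeta {P : Type*} (deg : P → ℕ) (hdeg : ∀ v, 0 < deg v)
    (hfin : ∀ m, 0 < m → {v | deg v ∣ m}.Finite)
    {ι : Type*} [Fintype ι] (c : ι → ℂ) (ε : ι → ℤ) (B : ℝ) (hB : 1 ≤ B) (hcB : ∀ k, ‖c k‖ ≤ B)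
    (hcount : ∀ m (hm : 0 < m), (∑ v ∈ (hfin m hm).toFinset, (deg v : ℂ)) =
      ∑ k, (ε k : ℂ) * c k ^ m)
    (x : ℂ) (hx : ‖x‖ * B < 1) :
    HasProd (fun v => (1 - x ^ deg v)⁻¹) (∏ k, (1 - c k * x) ^ (-ε k)) := by
  classical
  have hB0 : 0 < B := by linarith
  have hx1 : ‖x‖ < 1 := by nlinarith [norm_nonneg x]
  have hcx : ∀ k, ‖c k * x‖ < 1 := by
    intro k
    rw [norm_mul]
    calc ‖c k‖ * ‖x‖ ≤ B * ‖x‖ := mul_le_mul_of_nonneg_right (hcB k) (norm_nonneg _)
      _ < 1 := by rw [mul_comm]; exact hx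
  let S : ℝ := ∑ k, |(ε k : ℝ)|
  have hS : 0 ≤ S := Finset.sum_nonneg fun k _ => abs_nonneg _
  -- the double family
  let f : ℕ × P → ℂ := fun z => if deg z.2 ∣ z.1 then (deg z.2 : ℂ) * x ^ z.1 / z.1 else 0
  have hrow : ∀ m, HasSum (fun v => f (m, v))
      (x ^ m / m * ∑ k, (ε k : ℂ) * c k ^ m) := by
    intro m
    rcases Nat.eq_zero_or_pos m with rfl | hm
    · have h1 : ∀ v, f (0, v) = 0 := by
        intro v
        simp [f]
      simp only [h1, Nat.cast_zero, div_zero, zero_mul]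
      exact hasSum_zero
    · rw [← hcount m hm, Finset.mul_sum]
      have h1 : ∑ v ∈ (hfin m hm).toFinset, x ^ m / m * (deg v : ℂ) =
          ∑ v ∈ (hfin m hm).toFinset, f (m, v) := by
        refine Finset.sum_congr rfl fun v hv => ?_
        rw [Set.Finite.mem_toFinset] at hv
        have hv' : deg v ∣ m := hv
        simp only [f]
        rw [if_pos hv']
        ring
      rw [h1]
      refine hasSum_sum_of_ne_finset_zero fun v hv => ?_
      rw [Set.Finite.mem_toFinset] at hv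
      simp only [f]
      exact if_neg hv
  have hnorm : ∀ m v, ‖f (m, v)‖ = if deg v ∣ m then (deg v : ℝ) * ‖x‖ ^ m / m else 0 := by
    intro m v
    simp only [f]
    split_ifs
    · rw [norm_div, norm_mul, norm_pow, Complex.norm_natCast, Complex.norm_natCast]
    · simp
  have hrown : ∀ m, Summable (fun v => ‖f (m, v)‖) := fun m => (hrow m).summable.norm
  have hbound : ∀ m, ∑' v, ‖f (m, v)‖ ≤ S * (‖x‖ * B) ^ m := by
    intro m
    have hnn : 0 ≤ S * (‖x‖ * B) ^ m := by positivity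
    rcases Nat.eq_zero_or_pos m with rfl | hm
    · have h1 : ∀ v, ‖f (0, v)‖ = 0 := by
        intro v
        simp [f]
      simp only [h1, tsum_zero]
      exact hnn
    · have h1 : HasSum (fun v => ‖f (m, v)‖)
          (∑ v ∈ (hfin m hm).toFinset, ‖x‖ ^ m / m * (deg v : ℝ)) := by
        have h2 : ∑ v ∈ (hfin m hm).toFinset, ‖x‖ ^ m / m * (deg v : ℝ) =
            ∑ v ∈ (hfin m hm).toFinset, ‖f (m, v)‖ := by
          refine Finset.sum_congr rfl fun v hv => ?_
          rw [Set.Finite.mem_toFinset] at hv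
          have hv' : deg v ∣ m := hv
          rw [hnorm, if_pos hv']
          ring
        rw [h2]
        refine hasSum_sum_of_ne_finset_zero fun v hv => ?_
        rw [Set.Finite.mem_toFinset] at hv
        rw [hnorm]
        exact if_neg hv
      rw [h1.tsum_eq, ← Finset.mul_sum]
      have h3 : (∑ v ∈ (hfin m hm).toFinset, (deg v : ℝ)) ≤ S * B ^ m := by
        have h4 : (∑ v ∈ (hfin m hm).toFinset, (deg v : ℝ)) =
            ‖(∑ v ∈ (hfin m hm).toFinset, (deg v : ℂ))‖ := by
          have h5 : (∑ v ∈ (hfin m hm).toFinset, (deg v : ℂ)) =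
              ((∑ v ∈ (hfin m hm).toFinset, deg v : ℕ) : ℂ) := by push_cast; rfl
          rw [h5, Complex.norm_natCast]
          push_cast
          rfl
        rw [h4, hcount m hm]
        calc ‖∑ k, (ε k : ℂ) * c k ^ m‖ ≤ ∑ k, |(ε k : ℝ)| * B ^ m := by
              refine (norm_sum_le _ _).trans (Finset.sum_le_sum fun k _ => ?_)
              rw [norm_mul, norm_pow, Complex.norm_intCast]
              exact mul_le_mul_of_nonneg_left (pow_le_pow_left₀ (norm_nonneg _) (hcB k) m)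
                (abs_nonneg _)
          _ = S * B ^ m := (Finset.sum_mul _ _ _).symm
      have hm1 : (1 : ℝ) ≤ m := by exact_mod_cast hm
      calc ‖x‖ ^ m / m * ∑ v ∈ (hfin m hm).toFinset, (deg v : ℝ)
          ≤ ‖x‖ ^ m * (S * B ^ m) := by
            refine mul_le_mul ?_ h3 (Finset.sum_nonneg fun v _ => Nat.cast_nonneg _) (by positivity)
            exact div_le_self (by positivity) hm1
        _ = S * (‖x‖ * B) ^ m := by rw [mul_pow]; ring
  have hsumm : Summable f := by
    refine Summable.of_norm ?_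
    rw [summable_prod_of_nonneg (fun z => norm_nonneg _)]
    refine ⟨hrown, ?_⟩
    refine Summable.of_nonneg_of_le (fun m => tsum_nonneg fun v => norm_nonneg _) hbound ?_
    refine Summable.mul_left _ (summable_geometric_of_lt_one (by positivity) hx)
  obtain ⟨A, hA⟩ := hsumm
  have hA1 := hA.prod_fiberwise hrow
  have hA2 : HasSum (fun m : ℕ => x ^ m / m * ∑ k, (ε k : ℂ) * c k ^ m)
      (∑ k, (ε k : ℂ) * -log (1 - c k * x)) := by
    have h3 := hasSum_sum (s := Finset.univ)
      (fun k _ => (Complex.hasSum_taylorSeries_neg_log (hcx k)).mul_left (ε k : ℂ))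
    have h4 : ∀ m : ℕ, x ^ m / m * ∑ k, (ε k : ℂ) * c k ^ m =
        ∑ k, (ε k : ℂ) * ((c k * x) ^ m / m) := by
      intro m
      simp only [mul_pow]
      rw [Finset.mul_sum]
      exact Finset.sum_congr rfl fun k _ => by ring
    simp only [h4]
    exact h3
  have hAeq : A = ∑ k, (ε k : ℂ) * -log (1 - c k * x) := hA1.unique hA2
  have hB : HasSum (fun v => -log (1 - x ^ deg v)) A := by
    have h1 : HasSum (f ∘ Prod.swap) A := (Equiv.prodComm P ℕ).hasSum_iff.2 hA
    exact h1.prod_fiberwise (fun v => hasSum_fiber deg hdeg x hx1 v)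
  have hne : ∀ z : ℂ, ‖z‖ < 1 → 1 - z ≠ 0 := by
    intro z hz h
    have h1 : z = 1 := (sub_eq_zero.1 h).symm
    rw [h1, norm_one] at hz
    exact lt_irrefl _ hz
  have hxd : ∀ v, ‖x ^ deg v‖ < 1 := by
    intro v
    rw [norm_pow]
    exact pow_lt_one₀ (norm_nonneg _) hx1 (hdeg v).ne'
  have hlog : ∀ z : ℂ, ‖z‖ < 1 → log (1 - z)⁻¹ = -log (1 - z) := by
    intro z hz
    apply Complex.log_inv
    have h1 : 1 - z ∈ slitPlane := by
      left
      rw [sub_re, one_re]
      have := Complex.re_le_norm z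
      linarith
    exact (mem_slitPlane_iff_arg.1 h1).1
  have hP := hasProd_of_hasSum_log (f := fun v => (1 - x ^ deg v)⁻¹) (a := A)
    (fun v => inv_ne_zero (hne _ (hxd v))) (by
      simp only [hlog _ (hxd _)]
      exact hB)
  convert hP using 1
  rw [hAeq, exp_sum]
  refine Finset.prod_congr rfl fun k _ => ?_
  rw [mul_neg, ← neg_mul, ← Int.cast_neg, exp_int_mul, exp_log (hne _ (hcx k))]

/-- The zeta function. -/
noncomputable def zt {ι : Type*} [Fintype ι] (q : ℝ) (c : ι → ℂ) (ε : ι → ℤ) (s : ℂ) : ℂ :=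
  ∏ k, fac q (c k) s ^ (-ε k)

theorem meromorphic_zt {ι : Type*} [Fintype ι] (q : ℝ) (hq : 0 < q) (c : ι → ℂ) (ε : ι → ℤ)
    (s : ℂ) : MeromorphicAt (zt q c ε) s := by
  unfold zt
  exact MeromorphicAt.fun_prod fun k _ => (analyticAt_fac q hq _ s).meromorphicAt.fun_zpow _

theorem fac_eq_zero_iff' (q : ℝ) (hq : 0 < q) (γ : ℂ) (i : ℤ) :
    fac q γ i = 0 ↔ γ = (q : ℂ) ^ i := by
  have hq' : (q : ℂ) ≠ 0 := by exact_mod_cast hq.ne'
  unfold fac
  rw [cpow_neg, cpow_intCast, sub_eq_zero, eq_comm, mul_inv_eq_one₀ (zpow_ne_zero _ hq')]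

theorem order_zt {ι : Type*} [Fintype ι] (q : ℝ) (hq : 1 < q) (c : ι → ℂ) (ε : ι → ℤ) (j : ℤ)
    [DecidablePred fun k => c k = (q : ℂ) ^ j] :
    meromorphicOrderAt (zt q c ε) j =
      ((-∑ k, (if c k = (q : ℂ) ^ j then ε k else 0) : ℤ) : WithTop ℤ) := by
  classical
  have hq0 : 0 < q := by linarith
  have hmer : ∀ γ, MeromorphicAt (fac q γ) (j : ℂ) :=
    fun γ => (analyticAt_fac q hq0 γ _).meromorphicAt
  unfold zt
  rw [meromorphicOrderAt_fun_prod fun k _ => (hmer _).fun_zpow _]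
  rw [← Finset.sum_neg_distrib, WithTop.coe_sum]
  refine Finset.sum_congr rfl fun k _ => ?_
  rw [fun_meromorphicOrderAt_zpow (hmer _), order_fac q hq]
  simp only [fac_eq_zero_iff' q hq0]
  split_ifs
  · rw [mul_one]
  · rw [mul_zero, neg_zero, WithTop.coe_zero]

end Pool.Agent.R900.PT
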