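import Pool.Agent.R900.PT.ZetaDefs
import Pool.Agent.R900.PT.Pair
import Pool.Agent.R900.PT.Euler

/-!
# Zeta functions and ranks of higher Chow groups
-/

set_option autoImplicit false

namespace Pool.Agent.R900.PT

open Pool.Agent.W495.FM Module Pool.Agent.W484.BB

section

variable {Ω V : Type} [Field Ω] [CharZero Ω] {T : Homology Ω V} {X : V}

theorem reg_smul (hT : IsHomology T) (n j : ℤ) (c : ℚ) (x : T.M X n j) :
    T.reg X n j (c • x) = (c : Ω) • T.reg X n j x := by
  let f : T.M X n j →+ T.E X n j := AddMonoidHom.mk' (T.reg X n j) (hT.add X n j)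
  have h1 : f (c • x) = (c : Ω) • f x := map_ratCast_smul f ℚ Ω c x
  exact h1

/-- The rank of the motivic homology is the dimension of the span of the image of the regulator. -/
theorem finrank_span (hT : IsHomology T) (h : TB T X) (n j : ℤ) :
    finrank Ω (Submodule.span Ω (Set.range (T.reg X n j))) = finrank ℚ (T.M X n j) := by
  have := finite_of_tb hT h n j
  let a := finBasis ℚ (T.M X n j)
  have h1 := (h n j).2.1 _ a a.linearIndependent
  have h2 : Submodule.span Ω (Set.range (T.reg X n j)) =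
      Submodule.span Ω (Set.range fun k => T.reg X n j (a k)) := by
    apply le_antisymm
    · rw [Submodule.span_le]
      rintro _ ⟨x, rfl⟩
      let f : T.M X n j →+ T.E X n j := AddMonoidHom.mk' (T.reg X n j) (hT.add X n j)
      have h2 : T.reg X n j x = ∑ k, (a.repr x k : Ω) • T.reg X n j (a k) := by
        conv_lhs => rw [← a.sum_repr x]
        change f (∑ k, a.repr x k • a k) = _
        rw [map_sum]
        exact Finset.sum_congr rfl fun k _ => reg_smul hT n j _ _
      rw [h2]
      exact Submodule.sum_mem _ fun k _ => Submodule.smul_mem _ _ (Submodule.subset_span ⟨k, rfl⟩)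
    · rw [Submodule.span_le]
      rintro _ ⟨k, rfl⟩
      exact Submodule.subset_span ⟨_, rfl⟩
  rw [h2, finrank_span_eq_card h1, Fintype.card_fin]

/-- The generalized eigenspace for the eigenvalue one is the span of the image of the regulator. -/
theorem maxGenEigenspace_one (h : TB T X) (n j : ℤ) (φ : End Ω (T.E X n j))
    (hφ : ∀ e, φ e = T.frob X n j e) :
    φ.maxGenEigenspace 1 = Submodule.span Ω (Set.range (T.reg X n j)) := by
  ext e
  rw [End.mem_maxGenEigenspace, ← (h n j).1 e]
  have hs : ∀ e, (φ - 1) ((φ - 1) e) = 0 → (φ - 1) e = 0 := by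
    intro e he
    simp only [LinearMap.sub_apply, End.one_apply, hφ] at he ⊢
    have h1 := (h n j).2.2 e (sub_eq_zero.1 he)
    exact sub_eq_zero.2 h1
  rw [one_smul]
  constructor
  · rintro ⟨k, hk⟩
    have h2 : ∀ k : ℕ, ((φ - 1) ^ k) e = 0 → (φ - 1) e = 0 := by
      intro k
      induction k with
      | zero =>
        intro h0
        rw [pow_zero, End.one_apply] at h0
        rw [h0, map_zero]
      | succ k ih =>
        intro h0
        rcases k with _ | k
        · rwa [zero_add, pow_one] at h0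
        · refine ih ?_
          rw [pow_succ', End.mul_apply] at h0 ⊢
          rw [pow_succ', End.mul_apply] at h0
          exact hs _ h0
    have h3 := h2 k hk
    simp only [LinearMap.sub_apply, End.one_apply, hφ] at h3
    exact sub_eq_zero.1 h3
  · intro he
    refine ⟨1, ?_⟩
    rw [pow_one, LinearMap.sub_apply, End.one_apply, hφ, he, sub_self]

end

/-- A zeta function is determined by the Euler product. -/
theorem order_eq {Q : ℕ} {P : Type} {deg : P → ℕ} {Z Z' : ℂ → ℂ} (hZ : IsZeta Q deg Z)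
    (hZ' : IsZeta Q deg Z') (s : ℂ) : meromorphicOrderAt Z s = meromorphicOrderAt Z' s := by
  obtain ⟨h1, σ, hσ⟩ := hZ
  obtain ⟨h1', σ', hσ'⟩ := hZ'
  have hf : MeromorphicOn (Z - Z') Set.univ := fun x _ => (h1 x).sub (h1' x)
  let s₀ : ℂ := ((max σ σ' + 1 : ℝ) : ℂ)
  have h2 : meromorphicOrderAt (Z - Z') s₀ = ⊤ := by
    rw [meromorphicOrderAt_eq_top_iff]
    apply Filter.Eventually.filter_mono nhdsWithin_le_nhds
    have h3 : ∀ᶠ z : ℂ in nhds s₀, max σ σ' < z.re := by
      refine (isOpen_lt continuous_const Complex.continuous_re).mem_nhds ?_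
      change max σ σ' < s₀.re
      simp [s₀]
    filter_upwards [h3] with z hz
    have h4 := (hσ z ((le_max_left _ _).trans_lt hz)).unique
      (hσ' z ((le_max_right _ _).trans_lt hz))
    rw [Pi.sub_apply, h4, sub_self]
  have h3 : meromorphicOrderAt (Z - Z') s = ⊤ := by
    by_contra h
    exact hf.meromorphicOrderAt_ne_top_of_isPreconnected isPreconnected_univ (Set.mem_univ s)
      (Set.mem_univ s₀) h h2
  rw [meromorphicOrderAt_eq_top_iff] at h3
  refine meromorphicOrderAt_congr ?_
  filter_upwards [h3] with z hz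
  rw [Pi.sub_apply] at hz
  exact sub_eq_zero.1 hz

variable {V : Type} {T : Homology ℂ V} {X : V}

/-- The formula of Soulé. -/
theorem soule (hT : IsHomology T) (h : TB T X) {Q : ℕ} (hQ : 1 < Q) {P : Type} {deg : P → ℕ}
    (hP : HasPoints T X Q deg) : SouleFormula T X Q deg := by
  classical
  obtain ⟨N, r, α, hα0, htr, hE0, hgen⟩ := hP.coh
  have hQ' : (1 : ℝ) < ((Q : ℕ) : ℝ) := by exact_mod_cast hQ
  have hQ0 : (0 : ℝ) < ((Q : ℕ) : ℝ) := by linarith
  have hfin : ∀ m, 0 < m → {v | deg v ∣ m}.Finite := fun m hm =>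
    (hP.finite m).subset fun v hv => Nat.le_of_dvd hm hv
  let c : (Σ n : Fin N, Fin (r n)) → ℂ := fun z => α z.1 z.2
  let ε : (Σ n : Fin N, Fin (r n)) → ℤ := fun z => (-1) ^ (z.1 : ℕ)
  let B : ℝ := 1 + ∑ z, ‖c z‖
  have hB : 1 ≤ B := by
    have : 0 ≤ ∑ z, ‖c z‖ := Finset.sum_nonneg fun z _ => norm_nonneg _
    simp only [B]
    linarith
  have hB0 : 0 < B := by linarith
  have hcB : ∀ z, ‖c z‖ ≤ B := fun z => by
    have := Finset.single_le_sum (f := fun z => ‖c z‖) (fun z _ => norm_nonneg _)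
      (Finset.mem_univ z)
    simp only [B]
    linarith
  have hcount : ∀ m (hm : 0 < m), (∑ v ∈ (hfin m hm).toFinset, (deg v : ℂ)) =
      ∑ z, (ε z : ℂ) * c z ^ m := by
    intro m hm
    have h1 := htr m hm
    have h2 : (∑ᶠ (v : P) (_ : deg v ∣ m), (deg v : ℂ)) =
        ∑ v ∈ (hfin m hm).toFinset, (deg v : ℂ) :=
      finsum_mem_eq_finite_toFinset_sum (fun v => (deg v : ℂ)) (hfin m hm)
    rw [← h2, h1, Fintype.sum_sigma, Finset.sum_range]
    refine Finset.sum_congr rfl fun n _ => ?_
    rw [Finset.mul_sum]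
    refine Finset.sum_congr rfl fun k _ => ?_
    simp [ε, c]
  -- the zeta function
  have hZ0 : IsZeta Q deg (zt (Q : ℝ) c ε) := by
    refine ⟨fun s => meromorphic_zt _ hQ0 c ε s, Real.log B / Real.log Q, fun s hs => ?_⟩
    have hlog : 0 < Real.log (Q : ℝ) := Real.log_pos hQ'
    have h1 : ‖(((Q : ℝ) : ℂ)) ^ (-s)‖ * B < 1 := by
      rw [norm_cpow_neg _ hQ0]
      have h2 : Real.log B < s.re * Real.log Q := by
        rw [div_lt_iff₀ hlog] at hs
        exact hs
      have h3 : B < (Q : ℝ) ^ s.re := by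
        rw [Real.rpow_def_of_pos hQ0, mul_comm]
        exact (Real.log_lt_iff_lt_exp hB0).1 h2
      rw [Real.rpow_neg hQ0.le, inv_mul_lt_iff₀ (Real.rpow_pos_of_pos hQ0 _), mul_one]
      exact h3
    have h2 := hasProd_zeta deg hP.pos hfin c ε B hB hcB hcount _ h1
    have h3 : ∀ v, (1 - ((Q : ℂ) ^ deg v) ^ (-s))⁻¹ =
        (1 - ((((Q : ℕ) : ℝ) : ℂ) ^ (-s)) ^ deg v)⁻¹ := by
      intro v
      congr 2
      rw [Complex.ofReal_natCast, ← Complex.cpow_nat_mul, ← Complex.natCast_cpow_natCast_mul,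
        mul_comm]
    simp only [h3]
    exact h2
  -- the ranks
  have hrank : ∀ (n : ℕ) (j : ℤ), finrank ℚ (T.M X n j) =
      Nat.card {k : Fin (r n) // α n k = (Q : ℂ) ^ j} := by
    intro n j
    obtain ⟨φ, hφ, hc⟩ := hgen n j
    rw [← finrank_span hT h, ← maxGenEigenspace_one h n j φ hφ, hc 1]
    simp only [one_mul]
  have hzero : ∀ n j : ℤ, n < 0 ∨ (N : ℤ) ≤ n → finrank ℚ (T.M X n j) = 0 := by
    intro n j hn
    have : Subsingleton (T.M X n j) := ⟨fun x y => by
      rw [eq_zero_of_reg h x (hE0 n j hn _), eq_zero_of_reg h y (hE0 n j hn _)]⟩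
    exact finrank_zero_of_subsingleton
  refine ⟨⟨_, hZ0⟩, fun Z hZ j => ⟨⟨fun i => finite_of_tb hT h _ _, ?_⟩, ?_⟩⟩
  · refine (Set.finite_Icc (-(2 * j)) (N - 2 * j)).subset fun i hi => ?_
    by_contra hi'
    refine hi (hzero _ _ ?_)
    simp only [Set.mem_Icc, not_and_or, not_le] at hi'
    omega
  · rw [order_eq hZ hZ0, order_zt _ hQ']
    congr 2
    let g : ℤ → ℤ := fun n => (n.negOnePow : ℤ) * (finrank ℚ (T.M X n j) : ℤ)
    have h1 : (∑ᶠ i : ℤ, (i.negOnePow : ℤ) * (rk T X j i : ℤ)) = ∑ᶠ n, g n := by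
      rw [← finsum_comp_equiv (f := g) (Equiv.addRight (2 * j))]
      refine finsum_congr fun i => ?_
      simp only [g, rk, Equiv.coe_addRight]
      rw [Int.negOnePow_add, Int.negOnePow_two_mul, mul_one]
    have h2 : ∑ᶠ n, g n = ∑ n ∈ Finset.range N, g n := by
      rw [finsum_eq_sum_of_support_subset (s := (Finset.range N).map Nat.castEmbedding) g]
      · rw [Finset.sum_map]
        rfl
      · intro n hn
        by_contra hn'
        refine hn ?_
        have h3 : n < 0 ∨ (N : ℤ) ≤ n := by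
          by_contra h4
          push Not at h4
          obtain ⟨m, rfl⟩ := Int.eq_ofNat_of_zero_le h4.1
          refine hn' ?_
          simp only [Finset.coe_map, Set.mem_image, Finset.mem_coe, Finset.mem_range]
          exact ⟨m, by omega, rfl⟩
        simp only [g, hzero n j h3, Nat.cast_zero, mul_zero]
    rw [h1, h2, Fintype.sum_sigma, Finset.sum_range]
    refine Finset.sum_congr rfl fun n _ => ?_
    simp only [g, hrank, c, ε]
    rw [Nat.card_eq_fintype_card, Fintype.card_subtype, Finset.card_filter]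
    push_cast
    rw [Finset.mul_sum]
    refine Finset.sum_congr rfl fun k _ => ?_
    split_ifs
    · rw [mul_one, Int.negOnePow_def, zpow_natCast]
      simp
    · rw [mul_zero]

end Pool.Agent.R900.PT
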