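import Pool.Agent.R900.PT.CycleDefs
import Pool.Agent.R900.PT.TopDefs
import Pool.Agent.R900.PT.UnramDefs
import Pool.Agent.R900.PT.LDefs
import Pool.Agent.R900.PT.Main
import Pool.Agent.R900.PT.Zeta

/-!
# Consequences for étale motivic cohomology
-/

set_option autoImplicit false

namespace Pool.Agent.R900.PT

open Pool.Agent.W495.FM Module Pool.Agent.W484.BB

section

variable {Ω V : Type} [Field Ω] {T : Homology Ω V} {X : V}

theorem finite_of_exact {F A B : Type} [Zero B] [Finite F] {f : F → A} {g : A → B}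
    (h : Function.Exact f g) (h0 : ∀ b : B, b = 0) : Finite A := by
  have h1 : Function.Surjective f := fun y => (h y).1 (h0 _)
  exact Finite.of_surjective f h1

/-- Étale cohomology of cycle complexes in negative weights. -/
theorem cycle_finite (hT : IsHomology T) (h : TB T X) {n : ℤ} {H : ℤ → Type}
    [∀ i, AddCommGroup (H i)] (hH : IsCycleComplex T X n H) (i : ℤ) : Finite (H i) := by
  obtain ⟨F, hF, δ, φ, he⟩ := hH.exact i
  exact finite_of_exact he fun x => eq_zero_of_reg h x (hH.weight _ _ (hT.frob_reg X _ _ x))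

/-- Étale motivic cohomology in the top weight. -/
theorem top_fg (hT : IsHomology T) (h : TB T X) {d : ℤ} {H : ℤ → Type}
    [∀ i, AddCommGroup (H i)] (hH : IsTopWeight T X d H) (i : ℤ) (hi : i ≤ 2 * d) :
    AddGroup.FG (H i) := by
  rcases hi.lt_or_eq with hi | rfl
  · obtain ⟨F, hF, δ, φ, he⟩ := hH.exact i hi
    have : Finite (H i) := finite_of_exact he fun x =>
      eq_zero_of_reg h x (hH.weight _ (by omega) _ (hT.frob_reg X _ _ x))
    infer_instance
  · exact hH.top

/-- Unramified cohomology of degree three. -/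
theorem unramified_finite (hT : IsHomology T) (h : TB T X) {d : ℤ} {U : Type} [AddCommGroup U]
    (hU : IsUnramified T X d U) : Finite U := by
  obtain ⟨H, _, W, _, a, b, c, ha, hb, hc, he, hW, hs⟩ := hU.groups
  have hWfg : AddGroup.FG W := hW h
  let b' : H →+ W := AddMonoidHom.mk' b hb
  let c' : H →+ U := AddMonoidHom.mk' c hc
  have hinj : Function.Injective b' := by
    rw [injective_iff_map_eq_zero]
    intro y hy
    obtain ⟨x, rfl⟩ := (he y).1 hy
    rw [eq_zero_of_reg h x (hU.weight _ (hT.frob_reg X _ _ x)), ha]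
  have h1 : Module.Finite ℤ W := Module.Finite.iff_addGroup_fg.2 hWfg
  have h2 : Module.Finite ℤ H :=
    Module.Finite.of_injective b'.toIntLinearMap hinj
  have h3 : Module.Finite ℤ U :=
    Module.Finite.of_surjective c'.toIntLinearMap hs
  have h4 : AddGroup.FG U := Module.Finite.iff_addGroup_fg.1 h3
  refine AddCommGroup.finite_of_fg_torsion U fun x => ?_
  obtain ⟨N, hN, hx⟩ := hU.torsion x
  exact isOfFinAddOrder_iff_nsmul_eq_zero.2 ⟨N, hN, hx⟩

end

/-- Classes of cycles and the order of the `L`-function. -/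
theorem holds_at {V : Type} {T : Homology ℂ V} {X : V} (hT : IsHomology T) (h : TB T X) {Q : ℕ}
    (hQ : 1 < Q) {i : ℤ} {L : ℂ → ℂ} (hL : IsLFunction T X Q i L) : HoldsAt T X i L := by
  classical
  refine ⟨fun e he => ((h _ _).1 e).1 he, finite_of_tb hT h _ _, (h _ _).2.1, ?_⟩
  obtain ⟨r, α, φ, hφ, hc, hL⟩ := hL
  have hQ' : (1 : ℝ) < ((Q : ℕ) : ℝ) := by exact_mod_cast hQ
  have h1 : L = zt (Q : ℝ) α fun _ => 1 := by
    funext s
    rw [hL]
    simp [zt, fac]
  rw [h1, order_zt _ hQ', ← finrank_span hT h, ← maxGenEigenspace_one h _ _ φ hφ, hc 1]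
  congr 2
  rw [Nat.card_eq_fintype_card, Fintype.card_subtype, Finset.card_filter]
  push_cast
  refine Finset.sum_congr rfl fun k _ => ?_
  rw [one_mul]

end Pool.Agent.R900.PT
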