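import Pool.Agent.R900.PT.MurreDefs2
import Pool.Agent.R900.PT.Main

/-!
# Murre's conjectures
-/

set_option autoImplicit false

namespace Pool.Agent.R900.PT

open Pool.Agent.W495.FM

variable {Ω V : Type} [Field Ω] {T : Homology Ω V} {X XX : V} {d : ℤ} {c : Corr T X XX d}

theorem IsAdd.map_zero' {A B : Type} [AddCommGroup A] [AddCommGroup B] {f : A → B} (hf : IsAdd f) :
    f 0 = 0 := by
  have := hf 0 0
  simpa using this

theorem IsAdd.map_sum' {A B ι : Type} [AddCommGroup A] [AddCommGroup B] {f : A → B}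
    (hf : IsAdd f) (s : Finset ι) (x : ι → A) : f (∑ i ∈ s, x i) = ∑ i ∈ s, f (x i) :=
  map_sum (AddMonoidHom.mk' f hf) x s

theorem IsAdd.map_sub' {A B : Type} [AddCommGroup A] [AddCommGroup B] {f : A → B} (hf : IsAdd f)
    (x y : A) : f (x - y) = f x - f y :=
  map_sub (AddMonoidHom.mk' f hf) x y

theorem reg_inj (hT : IsHomology T) (h : TB T X) {n j : ℤ} {x y : T.M X n j}
    (hxy : T.reg X n j x = T.reg X n j y) : x = y :=
  sub_eq_zero.1 (eq_zero_of_reg h _ (by rw [IsAdd.map_sub' (hT.add X n j), hxy, sub_self]))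

theorem IsCorr.act_zero' (hc : IsCorr c) (l : ℤ) (x : T.M X (2 * l) l) : c.act l 0 x = 0 :=
  IsAdd.map_zero' (hc.add_act l x)

theorem act_eq_of_coh (hT : IsHomology T) (h : TB T X) (hc : IsCorr c) {l : ℤ}
    {r s : T.M XX (2 * d) d} (hrs : ∀ e, c.coh (2 * l) l r e = c.coh (2 * l) l s e)
    (x : T.M X (2 * l) l) : c.act l r x = c.act l s x :=
  reg_inj hT h (by rw [hc.reg, hc.reg, hrs])

theorem act_eq_zero (hT : IsHomology T) (h : TB T X) (hc : IsCorr c) {l : ℤ}
    {r : T.M XX (2 * d) d} (hr : ∀ e, c.coh (2 * l) l r e = 0) (x : T.M X (2 * l) l) :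
    c.act l r x = 0 := by
  rw [← hc.act_zero' l x]
  exact act_eq_of_coh hT h hc (fun e => by rw [hr, IsAdd.map_zero' (hc.add_coh _ _ e)]) x

variable {p : T.M XX (2 * d) d} {n : ℤ}

theorem IsCK.act_zero (hT : IsHomology T) (h : TB T X) (hc : IsCorr c) {s π}
    (hπ : IsCK c p n s π) {i l : ℤ} (hi : i ≠ 2 * l) (x) : c.act (l - n) (π i) x = 0 :=
  act_eq_zero hT h hc (fun e => by rw [hπ.coh, if_neg (by omega)]) x

theorem IsCK.act_eq (hT : IsHomology T) (h : TB T X) (hc : IsCorr c) {s π}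
    (hπ : IsCK c p n s π) {l : ℤ} (x) : c.act (l - n) (π (2 * l)) x = c.act (l - n) p x :=
  act_eq_of_coh hT h hc (fun e => by rw [hπ.coh, if_pos (by omega)]) x

theorem murreB (hT : IsHomology T) (h : TB T X) (hc : IsCorr c) : MurreB c p n :=
  fun _ _ hπ _ _ hi x => hπ.act_zero hT h hc hi.ne x

theorem murreD (h : TB T X) : MurreD c p n :=
  fun _ _ _ _ _ hx => eq_zero_of_reg h _ hx

theorem IsCK.fil_eq (hT : IsHomology T) (h : TB T X) (hc : IsCorr c) {s π}
    (hπ : IsCK c p n s π) (ν l : ℤ) :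
    Fil c n s π ν l = if ν ≤ 0 then Set.range (c.act (l - n) p) else {0} := by
  classical
  have key : ∀ x : ℤ → T.M X (2 * (l - n)) (l - n),
      ∑ i ∈ s with 2 * l + ν ≤ i, c.act (l - n) (π i) (x i) =
        if ν ≤ 0 then c.act (l - n) p (x (2 * l)) else 0 := by
    intro x
    rw [Finset.sum_eq_ite (2 * l) (fun i _ hi => hπ.act_zero hT h hc hi _)]
    by_cases hν : ν ≤ 0
    · rw [if_pos hν]
      by_cases hs : 2 * l ∈ s
      · rw [if_pos (by simp [hs]; omega), hπ.act_eq hT h hc]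
      · rw [if_neg (by simp [hs]), ← hπ.act_eq hT h hc, hπ.zero _ hs, hc.act_zero']
    · rw [if_neg hν, if_neg (by simp; omega)]
  ext y
  simp only [Fil, Set.mem_ofPred_eq, key]
  by_cases hν : ν ≤ 0
  · simp only [if_pos hν]
    exact ⟨fun ⟨x, hx⟩ => ⟨x (2 * l), hx.symm⟩, fun ⟨x, hx⟩ => ⟨fun _ => x, hx.symm⟩⟩
  · simp only [if_neg hν]
    exact ⟨fun ⟨x, hx⟩ => hx, fun hx => ⟨fun _ => 0, hx⟩⟩

theorem murreC (hT : IsHomology T) (h : TB T X) (hc : IsCorr c) : MurreC c p n :=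
  fun _ _ hπ _ _ hπ' ν l => by rw [hπ.fil_eq hT h hc, hπ'.fil_eq hT h hc]

theorem corr_ext (hXX : TB T XX) (hc : IsCorr c) (hk : IsKunneth c)
    {r s : T.M XX (2 * d) d} (h : ∀ n j e, c.coh n j r e = c.coh n j s e) : r = s :=
  sub_eq_zero.1 (eq_zero_of_reg hXX _ (hk.kunneth _ fun n j e => by
    have := IsAdd.map_sub' (hc.add_coh n j e) r s
    rw [this, h, sub_self]))

/-- Two Chow–Künneth decompositions are equal. -/
theorem IsCK.unique (hXX : TB T XX) (hc : IsCorr c) (hk : IsKunneth c) {s π s' π'}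
    (hπ : IsCK c p n s π) (hπ' : IsCK c p n s' π') : π = π' :=
  funext fun i => corr_ext hXX hc hk fun m j e => by rw [hπ.coh, hπ'.coh]

theorem murreA (hXX : TB T XX) (hc : IsCorr c) (hk : IsKunneth c)
    (hp : IsMotive c p) : MurreA c p n := by
  classical
  choose κ hκ using hk.katz_messing
  have c0 : ∀ m j r, c.coh m j r 0 = 0 := fun m j r => by
    obtain ⟨φ, hφ⟩ := hc.coh_lin m j r
    rw [hφ, map_zero]
  have z0 : ∀ m j e, c.coh m j 0 e = 0 := fun m j e => IsAdd.map_zero' (hc.add_coh m j e)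
  have hcoh : ∀ i m j e, c.coh m j (c.comp (κ (i - 2 * n)) p) e =
      if m + 2 * n = i then c.coh m j p e else 0 := by
    intro i m j e
    rw [hc.coh_comp, hκ]
    by_cases h : m + 2 * n = i
    · rw [if_pos h, if_pos (by omega)]
    · rw [if_neg h, if_neg (by omega)]
  have hpp : ∀ m j e, c.coh m j p (c.coh m j p e) = c.coh m j p e := fun m j e => by
    rw [← hc.coh_comp, hp]
  refine ⟨Finset.Icc (2 * n) (2 * n + 2 * d), fun i => c.comp (κ (i - 2 * n)) p, ?_, ?_, ?_, hcoh⟩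
  · intro i k
    refine corr_ext hXX hc hk fun m j e => ?_
    rw [hc.coh_comp]
    by_cases hik : i = k
    · subst hik
      rw [if_pos rfl, hcoh, hcoh]
      split_ifs
      · exact hpp _ _ _
      · rfl
    · rw [if_neg hik, hcoh, hcoh, z0]
      by_cases h1 : m + 2 * n = i
      · rw [if_pos h1, if_neg (by omega), c0]
      · rw [if_neg h1]
  · intro i hi
    refine corr_ext hXX hc hk fun m j e => ?_
    rw [hcoh, z0]
    split_ifs with h
    · refine hk.degrees m j ?_ _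
      rw [Finset.mem_Icc] at hi
      omega
    · rfl
  · refine corr_ext hXX hc hk fun m j e => ?_
    have h1 := IsAdd.map_sum' (hc.add_coh m j e) (Finset.Icc (2 * n) (2 * n + 2 * d))
      fun i => c.comp (κ (i - 2 * n)) p
    rw [h1]
    simp only [hcoh]
    rw [Finset.sum_ite_eq]
    split_ifs with h
    · rfl
    · symm
      refine hk.degrees m j ?_ _
      rw [Finset.mem_Icc] at h
      omega

/-- Independence of the Chow–Künneth filtration. -/
theorem ckFil_eq (hT : IsHomology T) (h : TB T X) (hc : IsCorr c) {π π'} (hπ : IsCKDec c π)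
    (hπ' : IsCKDec c π') (k i : ℤ) : CKFil c π k i = CKFil c π' k i := by
  unfold CKFil
  have h1 : c.act (d - i) (∑ m ∈ Finset.Icc 0 (2 * i - k), π m) =
      c.act (d - i) (∑ m ∈ Finset.Icc 0 (2 * i - k), π' m) := by
    funext x
    refine act_eq_of_coh hT h hc (fun e => ?_) x
    have e1 := fun π : ℤ → T.M XX (2 * d) d => IsAdd.map_sum' (hc.add_coh (2 * (d - i)) (d - i) e)
      (Finset.Icc 0 (2 * i - k)) π
    rw [e1, e1]
    exact Finset.sum_congr rfl fun m _ => by rw [hπ.coh, hπ'.coh]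
  rw [h1]

end Pool.Agent.R900.PT
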