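import Pool.Agent.R900.PT.Defs

/-!
# Murre's conjectures: definitions

`CH_l(X) ⊗ ℚ` is `M X (2 l) l`, with the cycle class map `reg` to `E X (2 l) l = H_(2 l)(X, ℚ_ℓ(l))`.
-/

set_option autoImplicit false

namespace Pool.Agent.R900.PT

open Pool.Agent.W495.FM

variable {Ω V : Type} [Field Ω]

/-- Correspondences of degree zero of the smooth projective variety `X` of dimension `d`; they are the
elements of `CH_d(X × X) ⊗ ℚ`, where `XX` is `X × X`: their composition, the class `one` of the diagonal,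
and their action on `CH_l(X) ⊗ ℚ` and on `H_n(X, ℚ_ℓ(j))`. -/
structure Corr (T : Homology Ω V) (X XX : V) (d : ℤ) where
  comp : T.M XX (2 * d) d → T.M XX (2 * d) d → T.M XX (2 * d) d
  one : T.M XX (2 * d) d
  act : ∀ l, T.M XX (2 * d) d → T.M X (2 * l) l → T.M X (2 * l) l
  coh : ∀ n j, T.M XX (2 * d) d → T.E X n j → T.E X n j

variable {T : Homology Ω V} {X XX : V} {d : ℤ}

/-- The formal properties of correspondences: they form a ring, which acts on the Chow groups and on
the cohomology, and the cycle class map is compatible with the actions. -/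
structure IsCorr (c : Corr T X XX d) : Prop where
  comp_add : ∀ r, IsAdd (c.comp r)
  add_comp : ∀ s, IsAdd fun r => c.comp r s
  assoc : ∀ r s t, c.comp (c.comp r s) t = c.comp r (c.comp s t)
  one_comp : ∀ r, c.comp c.one r = r
  comp_one : ∀ r, c.comp r c.one = r
  act_add : ∀ l r, IsAdd (c.act l r)
  add_act : ∀ l x, IsAdd fun r => c.act l r x
  act_one : ∀ l x, c.act l c.one x = x
  act_comp : ∀ l r s x, c.act l (c.comp r s) x = c.act l r (c.act l s x)
  coh_lin : ∀ n j r, IsLin Ω (c.coh n j r)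
  add_coh : ∀ n j e, IsAdd fun r => c.coh n j r e
  coh_one : ∀ n j e, c.coh n j c.one e = e
  coh_comp : ∀ n j r s e, c.coh n j (c.comp r s) e = c.coh n j r (c.coh n j s e)
  reg : ∀ l r x, T.reg X (2 * l) l (c.act l r x) = c.coh (2 * l) l r (T.reg X (2 * l) l x)

/-- The cohomology of `X` lies in the degrees `0, …, 2 d`; a correspondence that acts as zero on the
cohomology is homologically trivial (Künneth formula and Poincaré duality); the Künneth components of
the diagonal are algebraic (a theorem of Katz and Messing over finite fields). -/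
structure IsKunneth (c : Corr T X XX d) : Prop where
  degrees : ∀ n j, n < 0 ∨ 2 * d < n → ∀ e : T.E X n j, e = 0
  kunneth : ∀ r, (∀ n j e, c.coh n j r e = 0) → T.reg XX (2 * d) d r = 0
  katz_messing : ∀ m : ℤ, ∃ r, ∀ n j e, c.coh n j r e = if n = m then e else 0

/-- `(X, p, n)` is a motive: `p` is idempotent. -/
def IsMotive (c : Corr T X XX d) (p : T.M XX (2 * d) d) : Prop := c.comp p p = p

/-- A Chow–Künneth decomposition of the motive `M = (X, p, n)`: an orthogonal decomposition
`p = ∑ π i` (the sum over the elements of `s`; the other `π i` are zero) into idempotents, such that the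
motive `M_i = (X, π i, n)` has `H_i(M_i) = H_i(M)`, and `H_m(M_i) = 0` for `m ≠ i`. Here
`H_m(M) = p H_(m - 2 n)(X)`. -/
structure IsCK (c : Corr T X XX d) (p : T.M XX (2 * d) d) (n : ℤ) (s : Finset ℤ)
    (π : ℤ → T.M XX (2 * d) d) : Prop where
  comp : ∀ i k, c.comp (π i) (π k) = if i = k then π i else 0
  zero : ∀ i, i ∉ s → π i = 0
  sum : ∑ i ∈ s, π i = p
  coh : ∀ i m j e, c.coh m j (π i) e = if m + 2 * n = i then c.coh m j p e else 0

/-- `F^ν CH_l(M) = ⊕ CH_l(M_i)`, the sum over all `i ≥ 2 l + ν`, where `CH_l(M_i) = π_i CH_(l - n)(X)`. -/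
def Fil (c : Corr T X XX d) (n : ℤ) (s : Finset ℤ) (π : ℤ → T.M XX (2 * d) d) (ν l : ℤ) :
    Set (T.M X (2 * (l - n)) (l - n)) :=
  {y | ∃ x : ℤ → T.M X (2 * (l - n)) (l - n),
    y = ∑ i ∈ s with 2 * l + ν ≤ i, c.act (l - n) (π i) (x i)}

/-- Murre's conjecture (A) for the motive `(X, p, n)`. -/
def MurreA (c : Corr T X XX d) (p : T.M XX (2 * d) d) (n : ℤ) : Prop :=
  ∃ s π, IsCK c p n s π

/-- Murre's conjecture (B) for all Chow–Künneth decompositions of `(X, p, n)`: `CH_l(M_i) = 0` for
`i < 2 l`. -/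
def MurreB (c : Corr T X XX d) (p : T.M XX (2 * d) d) (n : ℤ) : Prop :=
  ∀ s π, IsCK c p n s π → ∀ i l : ℤ, i < 2 * l → ∀ x, c.act (l - n) (π i) x = 0

/-- Murre's conjecture (C) for `(X, p, n)`: the filtration is independent of the decomposition. -/
def MurreC (c : Corr T X XX d) (p : T.M XX (2 * d) d) (n : ℤ) : Prop :=
  ∀ s π, IsCK c p n s π → ∀ s' π', IsCK c p n s' π' → ∀ ν l : ℤ, Fil c n s π ν l = Fil c n s' π' ν l

/-- Murre's conjecture (D) for all Chow–Künneth decompositions of `(X, p, n)`: homologically trivial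
elements of `CH_l(M_(2 l))` are zero. -/
def MurreD (c : Corr T X XX d) (p : T.M XX (2 * d) d) (n : ℤ) : Prop :=
  ∀ s π, IsCK c p n s π → ∀ (l : ℤ) (x : T.M X (2 * (l - n)) (l - n)),
    T.reg X _ _ (c.act (l - n) (π (2 * l)) x) = 0 → c.act (l - n) (π (2 * l)) x = 0

end Pool.Agent.R900.PT
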