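import Pool.Agent.R900.PT.MurreDefs

/-!
# Independence of the Chow–Künneth filtration: definitions

For a smooth projective variety `X` of dimension `d` the group `CH^i(X) ⊗ ℚ` is `M X (2 (d - i)) (d - i)`,
and `H^i(X, ℚ_ℓ(d - j))` is `E X (2 d - i) j = H_(2 d - i)(X, ℚ_ℓ(j))`.
-/

set_option autoImplicit false

namespace Pool.Agent.R900.PT

open Pool.Agent.W495.FM

variable {Ω V : Type} [Field Ω] {T : Homology Ω V} {X XX : V} {d : ℤ}

/-- `π 0, …, π (2 d)` (the other `π i` are zero) is a Chow–Künneth decomposition of the smooth projective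
variety `X` of dimension `d`: orthogonal idempotents whose sum is the class of the diagonal, such that
`π i` acts as the identity on `H^i(X)` and as zero on `H^j(X)` for `j ≠ i`. -/
structure IsCKDec (c : Corr T X XX d) (π : ℤ → T.M XX (2 * d) d) : Prop where
  comp : ∀ i k, c.comp (π i) (π k) = if i = k then π i else 0
  zero : ∀ i, i < 0 ∨ 2 * d < i → π i = 0
  sum : ∑ i ∈ Finset.Icc 0 (2 * d), π i = c.one
  coh : ∀ i m j (e : T.E X m j), c.coh m j (π i) e = if m = 2 * d - i then e else 0

/-- `F^k CH^i(X) = (π^(2 i - k) + ⋯ + π^0) CH^i(X)`. -/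
def CKFil (c : Corr T X XX d) (π : ℤ → T.M XX (2 * d) d) (k i : ℤ) :
    Set (T.M X (2 * (d - i)) (d - i)) :=
  Set.range (c.act (d - i) (∑ m ∈ Finset.Icc 0 (2 * i - k), π m))

end Pool.Agent.R900.PT
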