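import Pool.Agent.R900.PT.NCDefs
import Pool.Agent.R900.PT.Main

/-!
# `K`-theory of dg categories
-/

set_option autoImplicit false

namespace Pool.Agent.R900.PT

open Pool.Agent.W495.FM

theorem torsion_sum {G : Type} [AddCommGroup G] {I : Type} (s : Finset I) (f : I → G)
    (h : ∀ l ∈ s, ∃ N : ℕ, 0 < N ∧ N • f l = 0) : ∃ N : ℕ, 0 < N ∧ N • ∑ l ∈ s, f l = 0 := by
  classical
  induction s using Finset.induction_on with
  | empty => exact ⟨1, one_pos, by simp⟩
  | insert a s ha ih =>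
    obtain ⟨N, hN, h1⟩ := ih fun l hl => h l (Finset.mem_insert_of_mem hl)
    obtain ⟨M, hM, h2⟩ := h a (Finset.mem_insert_self a s)
    refine ⟨N * M, Nat.mul_pos hN hM, ?_⟩
    rw [Finset.sum_insert ha, smul_add, mul_smul, h2, smul_zero, zero_add, mul_comm, mul_smul, h1,
      smul_zero]

/-- An element with `N x = ∑ l, t l (s l x)` is torsion if the elements `s l x` are. -/
theorem torsion_of_summand {G : Type} [AddCommGroup G] {I : Type} [Fintype I] {H : I → Type}
    [∀ l, AddCommGroup (H l)] (s : ∀ l, G →+ H l) (t : ∀ l, H l →+ G) {N : ℕ} (hN : 0 < N) (x : G)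
    (h : ∑ l, t l (s l x) = N • x) (hs : ∀ l, ∃ M : ℕ, 0 < M ∧ M • s l x = 0) :
    ∃ M : ℕ, 0 < M ∧ M • x = 0 := by
  obtain ⟨M, hM, h1⟩ := torsion_sum Finset.univ (fun l => t l (s l x)) fun l _ => by
    obtain ⟨M, hM, h2⟩ := hs l
    exact ⟨M, hM, by rw [← map_nsmul, h2, map_zero]⟩
  exact ⟨M * N, Nat.mul_pos hM hN, by rw [mul_smul, ← h, h1]⟩

/-- The noncommutative conjecture of Parshin. -/
theorem nc_parshin {Ω V D : Type} [Field Ω] {T : Homology Ω V} (hT : IsHomology T) {G : V → Prop}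
    (hG : ∀ X, G X → TB T X) {K : D → ℕ → Type} [∀ A n, AddCommGroup (K A n)] {A : D}
    (hA : NCGenerated K (IsPerf T G K) A) : ∀ n, 1 ≤ n → IsTorsion (K A n) := by
  induction hA with
  | base A h =>
    obtain ⟨X, hX, hp, hK⟩ := h
    exact fun n hn => parshin hT (hG X hX) hp (K A) hK n hn
  | summand A B h _ ih =>
    obtain ⟨N, hN, h1⟩ := h
    intro n hn x
    obtain ⟨s, t, h2⟩ := h1 n
    exact torsion_of_summand s t hN x (h2 x) fun l => ih l n hn (s l x)

end Pool.Agent.R900.PT
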