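import Pool.Agent.W495.FM.SpreadDefs

/-!
# Invariants of dg categories: definitions
-/

set_option autoImplicit false

namespace Pool.Agent.R900.PT

open Pool.Agent.W495.FM

/-- `K A n = K_n(A)` are the algebraic `K`-groups of the dg categories `A : D` over finite fields. The
noncommutative motive of `A` with rational coefficients is a direct summand of the sum of the motives of
the `B l`: the identity of `A`, times an integer `N > 0`, factors through the sum of the `B l`. For
instance, a smooth and proper dg category with a semiorthogonal decomposition is the sum of its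
components, and the components are summands (`N = 1`). -/
def IsRetract {D : Type} (K : D → ℕ → Type) [∀ A n, AddCommGroup (K A n)] {I : Type} [Fintype I]
    (A : D) (B : I → D) : Prop :=
  ∃ N : ℕ, 0 < N ∧ ∀ n, ∃ (s : ∀ l, K A n → K (B l) n) (t : ∀ l, K (B l) n → K A n),
    (∀ l, IsAdd (t l)) ∧ ∀ x, ∑ l, t l (s l x) = N • x

/-- The smallest class of dg categories that contains those with the property `S`, and those whose
noncommutative motives with rational coefficients are direct summands of finite sums of motives of
members. -/
inductive RetractGenerated {D : Type} (K : D → ℕ → Type) [∀ A n, AddCommGroup (K A n)]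
    (S : D → Prop) : D → Prop
  | base (A : D) (h : S A) : RetractGenerated K S A
  | summand {I : Type} [Fintype I] (A : D) (B : I → D) (h : IsRetract K A B)
      (hB : ∀ l, RetractGenerated K S (B l)) : RetractGenerated K S A

/-- `A` is the dg category of the perfect complexes on a smooth and projective scheme `X` in the class
`G`: by the Weil conjectures (Deligne) for `n ≠ 2 j` no element of `H_n(X, ℚ_ℓ(j))`, except zero, is
invariant under the Frobenius. Its `K`-groups are those of `X`: the Chern character embeds `K_m(X)`, up
to torsion, into the sum of the groups `CH_j(X, m) ⊗ ℚ = H_{m + 2 j}^M(X, ℚ(j))`. -/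
def IsPerfOf {Ω V D : Type} [Field Ω] (T : Homology Ω V) (G : V → Prop) (K : D → ℕ → Type)
    [∀ A n, AddCommGroup (K A n)] (A : D) : Prop :=
  ∃ X : V, G X ∧ (∀ n j : ℤ, n ≠ 2 * j → ∀ e : T.E X n j, T.frob X n j e = e → e = 0) ∧
    ∀ m : ℕ, ∃ φ : ∀ j : ℤ, K A m → T.M X (m + 2 * j) j,
      ∀ x, (∀ j, φ j x = 0) → ∃ N : ℕ, 0 < N ∧ N • x = 0

end Pool.Agent.R900.PT
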