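import Pool.Agent.R900.PT.NCBeilDefs
import Pool.Agent.R900.PT.NCDefs2
import Pool.Agent.R900.PT.Pair
import Pool.Agent.R900.PT.NC

/-!
# The noncommutative conjectures of Parshin and Beilinson
-/

set_option autoImplicit false

namespace Pool.Agent.R900.PT

open Pool.Agent.W495.FM

/-- An element with `N x = ∑ l, t l (s l x)` is torsion if the elements `s l x` are. -/
theorem torsion_of_retract {G : Type} [AddCommGroup G] {I : Type} [Fintype I] {H : I → Type}
    [∀ l, AddCommGroup (H l)] (s : ∀ l, G → H l) (t : ∀ l, H l → G) (ht : ∀ l, IsAdd (t l)) {N : ℕ}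
    (hN : 0 < N) (x : G) (h : ∑ l, t l (s l x) = N • x)
    (hs : ∀ l, ∃ M : ℕ, 0 < M ∧ M • s l x = 0) : ∃ M : ℕ, 0 < M ∧ M • x = 0 := by
  let t' : ∀ l, H l →+ G := fun l => AddMonoidHom.mk' (t l) (ht l)
  obtain ⟨M, hM, h1⟩ := torsion_sum Finset.univ (fun l => t l (s l x)) fun l _ => by
    obtain ⟨M, hM, h2⟩ := hs l
    refine ⟨M, hM, ?_⟩
    change M • t' l (s l x) = 0
    rw [← map_nsmul, h2, map_zero]
  exact ⟨M * N, Nat.mul_pos hM hN, by rw [mul_smul, ← h, h1]⟩

/-- The noncommutative conjecture of Parshin. -/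
theorem nc_parshin' {Ω V D : Type} [Field Ω] {T : Homology Ω V} (hT : IsHomology T) {G : V → Prop}
    (hG : ∀ X, G X → TB T X) {K : D → ℕ → Type} [∀ A n, AddCommGroup (K A n)] {A : D}
    (hA : RetractGenerated K (IsPerfOf T G K) A) :
    ∀ n, 1 ≤ n → ∀ x : K A n, ∃ N : ℕ, 0 < N ∧ N • x = 0 := by
  induction hA with
  | base A h =>
    obtain ⟨X, hX, hp, hK⟩ := h
    intro n hn x
    obtain ⟨φ, hφ⟩ := hK n
    exact hφ x fun j => m_eq_zero hT (hG X hX) hp (by omega) _
  | summand A B h _ ih =>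
    obtain ⟨N, hN, h1⟩ := h
    intro n hn x
    obtain ⟨s, t, ht, h2⟩ := h1 n
    exact torsion_of_retract s t ht hN x (h2 x) fun l => ih l n hn (s l x)

/-- An element of motivic homology that is orthogonal to all elements is zero. -/
theorem nondeg_left' {Ω V : Type} [Field Ω] {T : Homology Ω V} {X : V} (hT : IsHomology T)
    (h : TB T X) {n j n' j' : ℤ} {β : T.E X n j → T.E X n' j' → Ω} (hl : ∀ x, IsLin Ω (β x))
    (hβ : ∀ x, (∀ y, β x y = 0) → x = 0)
    (hF : ∀ x y, β (T.frob X n j x) (T.frob X n' j' y) = β x y) (x : T.M X n j)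
    (hx : ∀ y, β (T.reg X n j x) (T.reg X n' j' y) = 0) : x = 0 := by
  have := hT.finite X n' j'
  obtain ⟨F, hF'⟩ := hT.lin X n' j'
  obtain ⟨g, hg⟩ := hl (T.reg X n j x)
  refine eq_zero_of_reg h x (hβ _ fun e => ?_)
  obtain ⟨y, z, hy, rfl⟩ := exists_decomp F (fun e he => by
    rw [← hF']
    refine ((h n' j').2.2 e ?_)
    simpa only [hF'] using he) e
  rw [hg, map_add, map_sub]
  have h1 : g (F z) = g z := by
    rw [← hF' z, ← hg, ← hg]
    conv_lhs => rw [← hT.frob_reg X n j x]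
    exact hF _ _
  rw [h1, sub_self, add_zero]
  have h2 : y ∈ Submodule.span Ω (Set.range (T.reg X n' j')) := ((h n' j').1 y).1 (by rw [hF', hy])
  refine Submodule.span_induction ?_ ?_ ?_ ?_ h2
  · rintro _ ⟨w, rfl⟩
    rw [← hg]
    exact hx w
  · exact map_zero _
  · intro u v _ _ hu hv
    rw [map_add, hu, hv, add_zero]
  · intro c u _ hu
    rw [map_smul, hu, smul_zero]

/-- The noncommutative conjecture of Beilinson. -/
theorem nc_beilinson {Ω V D : Type} [Field Ω] [CharZero Ω] {T : Homology Ω V}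
    (hT : IsHomology T) {G : V → Prop} (hG : ∀ X, G X → TB T X) {K : D → Type}
    [∀ A, AddCommGroup (K A)] {χ : ∀ A, K A → K A → ℤ} {A : D}
    (hA : EulerGenerated K χ (fun A => IsPerfEuler T G (χ A)) A) : NCBeilinson (χ A) := by
  induction hA with
  | base A h =>
    obtain ⟨X, d, β, ch, w, hX, hl, hnd, hF, h1, h2, h3⟩ := h
    intro x hx
    refine h1 x fun m hm => ?_
    refine nondeg_left' hT (hG X hX) (hl m) (hnd m) (hF m) _ fun z => ?_
    obtain ⟨N, y, hN, hy, hy'⟩ := h2 m hm z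
    have h4 := h3 x y
    rw [hx y, Finset.sum_eq_single m, hy] at h4
    · obtain ⟨f, hf⟩ := hl m (T.reg X _ _ (ch m x))
      have h8 : T.reg X (2 * m) m (N • z) = N • T.reg X (2 * m) m z :=
        map_nsmul (AddMonoidHom.mk' (T.reg X (2 * m) m) (hT.add X _ _)) N z
      rw [h8, hf, map_nsmul, ← hf] at h4
      have h5 : ((-1 : Ω)) ^ m ≠ 0 := pow_ne_zero _ (by norm_num)
      have h6 : (N : Ω) ≠ 0 := by exact_mod_cast hN.ne'
      rw [nsmul_eq_mul] at h4
      have h7 : (-1 : Ω) ^ m * ((N : Ω) * β m (T.reg X _ _ (ch m x)) (T.reg X _ _ z)) = 0 := by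
        rw [← h4, Int.cast_zero]
      exact (mul_eq_zero.1 ((mul_eq_zero.1 h7).resolve_left h5)).resolve_left h6
    · intro n hn hnm
      rw [hy' n hn (by exact_mod_cast hnm)]
      obtain ⟨f, hf⟩ := hl n (T.reg X _ _ (ch n x))
      have h8 : T.reg X (2 * n) n 0 = 0 :=
        map_zero (AddMonoidHom.mk' (T.reg X (2 * n) n) (hT.add X _ _))
      rw [h8, hf, map_zero, mul_zero]
    · intro h
      exact absurd hm h
  | summand A B h _ ih =>
    obtain ⟨N, s, s', t, hN, ht, h1, h2⟩ := h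
    intro x hx
    exact torsion_of_retract s t ht hN x (h1 x) fun l => ih l (s l x) fun y => by rw [h2, hx]

end Pool.Agent.R900.PT
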