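import Pool.Agent.W495.FM.SpreadDefs

/-!
# The noncommutative conjecture of Beilinson: definitions
-/

set_option autoImplicit false

namespace Pool.Agent.R900.PT

open Pool.Agent.W495.FM

/-- `K A = K_0(A)` are the Grothendieck groups of the smooth and proper dg categories `A : D` over finite
fields, with the Euler pairings `χ A`. The noncommutative motive of `A` with rational coefficients is a
direct summand of the sum of the motives of the `B l`: the identity of `A`, times an integer `N > 0`,
factors through the sum of the `B l`. The maps are given by bimodules; the map `s l` has an adjoint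
`s' l` with respect to the Euler pairings, given by the adjoint bimodule. For instance, a smooth and
proper dg category with a semiorthogonal decomposition is the sum of its components, and the
components are summands (`N = 1`). -/
def IsEulerSummand {D : Type} (K : D → Type) [∀ A, AddCommGroup (K A)] (χ : ∀ A, K A → K A → ℤ)
    {I : Type} [Fintype I] (A : D) (B : I → D) : Prop :=
  ∃ (N : ℕ) (s : ∀ l, K A → K (B l)) (s' t : ∀ l, K (B l) → K A), 0 < N ∧ (∀ l, IsAdd (t l)) ∧
    (∀ x, ∑ l, t l (s l x) = N • x) ∧ ∀ l x y, χ (B l) (s l x) y = χ A x (s' l y)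

/-- The smallest class of dg categories that contains those with the property `S`, and those whose
noncommutative motives with rational coefficients are direct summands of finite sums of motives of
members. -/
inductive EulerGenerated {D : Type} (K : D → Type) [∀ A, AddCommGroup (K A)]
    (χ : ∀ A, K A → K A → ℤ) (S : D → Prop) : D → Prop
  | base (A : D) (h : S A) : EulerGenerated K χ S A
  | summand {I : Type} [Fintype I] (A : D) (B : I → D) (h : IsEulerSummand K χ A B)
      (hB : ∀ l, EulerGenerated K χ S (B l)) : EulerGenerated K χ S A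

/-- `K` and `χ` are the Grothendieck group and the Euler pairing of the dg category of the perfect
complexes on a smooth and projective scheme `X` of pure dimension `d` in the class `G`.

* `β n` is the pairing of Poincaré duality of `H^(2 n)(X, ℚ_ℓ(n))` and `H^(2 d - 2 n)(X, ℚ_ℓ(d - n))`; it
  is not degenerate, and invariant under the Frobenius.
* `ch n : K_0(X) → CH^n(X)_ℚ`, `n ≤ d`, are the components of the Chern character; it is injective up to
  torsion. The elements `w n y`, of `CH^(d - n)(X)_ℚ`, are the components of `ch(y) · td(X)`; as the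
  Chern character is surjective and the Todd class is invertible, each element of `CH^(d - m)(X)_ℚ`
  has a multiple of this form.
* The Euler pairing is given by the theorem of Hirzebruch, Riemann and Roch. -/
def IsPerfEuler {Ω V : Type} [Field Ω] (T : Homology Ω V) (G : V → Prop) {K : Type} [AddCommGroup K]
    (χ : K → K → ℤ) : Prop :=
  ∃ (X : V) (d : ℕ) (β : ∀ n : ℤ, T.E X (2 * d - 2 * n) (d - n) → T.E X (2 * n) n → Ω)
    (ch : ∀ n : ℤ, K → T.M X (2 * d - 2 * n) (d - n)) (w : ∀ n : ℤ, K → T.M X (2 * n) n),
    G X ∧ (∀ n x, IsLin Ω (β n x)) ∧ (∀ n x, (∀ y, β n x y = 0) → x = 0) ∧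
    (∀ n x y, β n (T.frob X _ _ x) (T.frob X _ _ y) = β n x y) ∧
    (∀ x, (∀ n ∈ Finset.range (d + 1), ch n x = 0) → ∃ N : ℕ, 0 < N ∧ N • x = 0) ∧
    (∀ m ∈ Finset.range (d + 1), ∀ z, ∃ (N : ℕ) (y : K), 0 < N ∧ w m y = N • z ∧
      ∀ n ∈ Finset.range (d + 1), n ≠ m → w n y = 0) ∧
    ∀ x y, (χ x y : Ω) =
      ∑ n ∈ Finset.range (d + 1), (-1) ^ n * β n (T.reg X _ _ (ch n x)) (T.reg X _ _ (w n y))

/-- The kernel of the Euler pairing consists of torsion elements. -/
def NCBeilinson {K : Type} [AddCommGroup K] (χ : K → K → ℤ) : Prop :=
  ∀ x, (∀ y, χ x y = 0) → ∃ N : ℕ, 0 < N ∧ N • x = 0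

end Pool.Agent.R900.PT
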