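import Pool.Agent.R900.PT.Defs

/-!
# Invariants of dg categories: definitions
-/

set_option autoImplicit false

namespace Pool.Agent.R900.PT

open Pool.Agent.W495.FM

/-- `K A n` are groups which depend functorially on the noncommutative motives of the dg categories
`A : D` over finite fields, for instance the algebraic `K`-groups `K_n(A)`, or the groups
`π_{-1} (L_KU K (A ⊗ 𝔽_{q^n}))`. The noncommutative motive of `A` with rational coefficients is a direct
summand of the sum of the motives of the `B l`: the identity of `A`, times an integer `N > 0`, factors
through the sum of the `B l`. For instance, a smooth and proper dg category with a semiorthogonal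
decomposition is the sum of its components, and the components are summands (`N = 1`). -/
def IsNCSummand {D : Type} (K : D → ℕ → Type) [∀ A n, AddCommGroup (K A n)] {I : Type} [Fintype I]
    (A : D) (B : I → D) : Prop :=
  ∃ N : ℕ, 0 < N ∧ ∀ n, ∃ (s : ∀ l, K A n →+ K (B l) n) (t : ∀ l, K (B l) n →+ K A n),
    ∀ x, ∑ l, t l (s l x) = N • x

/-- The smallest class of dg categories that contains those with the property `S`, and those whose
noncommutative motives with rational coefficients are direct summands of finite sums of motives of
members. -/
inductive NCGenerated {D : Type} (K : D → ℕ → Type) [∀ A n, AddCommGroup (K A n)] (S : D → Prop) :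
    D → Prop
  | base (A : D) (h : S A) : NCGenerated K S A
  | summand {I : Type} [Fintype I] (A : D) (B : I → D) (h : IsNCSummand K A B)
      (hB : ∀ l, NCGenerated K S (B l)) : NCGenerated K S A

/-- `A` is the dg category of the perfect complexes on a smooth and projective scheme `X` in the class
`G`; its `K`-groups are those of `X`. -/
def IsPerf {Ω V D : Type} [Field Ω] (T : Homology Ω V) (G : V → Prop) (K : D → ℕ → Type)
    [∀ A n, AddCommGroup (K A n)] (A : D) : Prop :=
  ∃ X : V, G X ∧ IsPure T X ∧ IsKTheory T X (K A)

end Pool.Agent.R900.PT
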