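import Pool.Agent.R900.PT.NCTateDefs
import Pool.Agent.R900.PT.Main

/-!
# The noncommutative conjecture of Tate
-/

set_option autoImplicit false

namespace Pool.Agent.R900.PT

open Pool.Agent.W495.FM

/-- The Prüfer group is divisible. -/
theorem pruefer_div (l : ℕ) [Fact l.Prime] (N : ℕ) (hN : 0 < N) (x : Pruefer l) :
    ∃ y : Pruefer l, N • y = x := by
  have hl : l.Prime := Fact.out
  obtain ⟨x, hx⟩ := x
  obtain ⟨k, hk⟩ : ∃ k : ℕ, l ^ k • x = 0 := hx
  obtain ⟨a, M, hM, rfl⟩ := Nat.exists_eq_pow_mul_and_not_dvd hN.ne' l hl.ne_one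
  obtain ⟨r, rfl⟩ := QuotientAddGroup.mk_surjective x
  set y' : AddCircle (1 : ℚ) := ((r / (l : ℚ) ^ a : ℚ) : AddCircle (1 : ℚ)) with hy'
  have hl0 : (l : ℚ) ≠ 0 := by exact_mod_cast hl.ne_zero
  have h1 : l ^ a • y' = (r : AddCircle (1 : ℚ)) := by
    rw [hy', ← AddCircle.coe_nsmul]
    congr 1
    rw [nsmul_eq_mul]
    push_cast
    field_simp
  have h2 : l ^ (k + a) • y' = 0 := by
    rw [pow_add, mul_smul, h1]
    exact hk
  have hcop : Nat.Coprime M (l ^ (k + a)) :=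
    Nat.Coprime.pow_right _ ((hl.coprime_iff_not_dvd.2 hM).symm)
  obtain ⟨M', hM'⟩ : ∃ M' : ℕ, M * M' ≡ 1 [MOD l ^ (k + a)] := by
    rcases Nat.lt_or_ge 1 (l ^ (k + a)) with h4 | h4
    · obtain ⟨m, -, hm⟩ := Nat.exists_mul_mod_eq_one_of_coprime hcop h4
      exact ⟨m, by rw [Nat.ModEq, hm, Nat.mod_eq_of_lt h4]⟩
    · have h5 : l ^ (k + a) = 1 := le_antisymm h4 (Nat.one_le_pow _ _ hl.pos)
      exact ⟨1, by rw [h5]; exact Nat.modEq_one⟩
  have h3 : (M * M') • y' = y' := by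
    have h4 : (M * M') % addOrderOf y' = 1 % addOrderOf y' :=
      hM'.of_dvd (addOrderOf_dvd_of_nsmul_eq_zero h2)
    rw [← mod_addOrderOf_nsmul y' (M * M'), h4, mod_addOrderOf_nsmul, one_smul]
  refine ⟨⟨M' • y', ⟨k + a, by rw [smul_comm, h2, smul_zero]⟩⟩, Subtype.ext ?_⟩
  change (l ^ a * M) • (M' • y') = _
  rw [mul_smul, ← mul_smul M M', h3, h1]

/-- The noncommutative conjecture of Tate. -/
theorem nc_tate {Ω V D : Type} [Field Ω] {T : Homology Ω V} {G : V → Prop}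
    (hG : ∀ X, G X → TB T X) (l : ℕ) [Fact l.Prime] {P : D → ℕ → Type}
    [∀ A n, AddCommGroup (P A n)] {A : D} (hA : NCGenerated P (IsPerfTate T G l P) A) :
    NCTate l (P A) := by
  induction hA with
  | base A h =>
    obtain ⟨X, hX, h1⟩ := h
    exact h1 fun n hn j => surj_of_tb (hG _ (hX n hn)) _ _
  | summand A B h _ ih =>
    obtain ⟨N, hN, h1⟩ := h
    intro n hn f
    obtain ⟨s, t, h2⟩ := h1 n
    ext x
    obtain ⟨y, rfl⟩ := pruefer_div l N hN x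
    have h3 : ∀ k, s k (f y) = 0 := fun k => DFunLike.congr_fun (ih k n hn ((s k).comp f)) y
    rw [map_nsmul, ← h2, Finset.sum_eq_zero fun k _ => by rw [h3, map_zero]]
    rfl

end Pool.Agent.R900.PT
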