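import Pool.Agent.R900.PT.NCDefs

/-!
# The noncommutative conjecture of Tate: definitions
-/

set_option autoImplicit false

namespace Pool.Agent.R900.PT

open Pool.Agent.W495.FM

/-- The Prüfer group `ℤ(l^∞) = ℤ[1 / l] / ℤ`: the elements of `ℚ / ℤ` whose order is a power of `l`. -/
abbrev Pruefer (l : ℕ) [Fact l.Prime] : Type :=
  AddCommGroup.primaryComponent (AddCircle (1 : ℚ)) l

/-- The groups `G_n(A) = Hom (ℤ(l^∞), π_{-1} (L_KU K (A ⊗ 𝔽_{q^n})))`, `n ≥ 1`, vanish. Here `P n` is the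
group `π_{-1} (L_KU K (A ⊗ 𝔽_{q^n}))`. -/
def NCTate (l : ℕ) [Fact l.Prime] (P : ℕ → Type) [∀ n, AddCommGroup (P n)] : Prop :=
  ∀ n, 1 ≤ n → ∀ f : Pruefer l →+ P n, f = 0

/-- The conjecture of Tate for `X`, a scheme over the field with `q` elements, where
`X n = X ⊗ 𝔽_{q^n}`: the cycle classes in `H_(2 j)(X n, ℚ_ℓ(j))` generate the space of Frobenius
invariants. -/
def Tate {Ω V : Type} [Field Ω] (T : Homology Ω V) (X : ℕ → V) : Prop :=
  ∀ n, 1 ≤ n → ∀ j, IsSurjectiveAt T (X n) (2 * j) j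

/-- `A` is the dg category of the perfect complexes on a smooth and projective scheme `X` over the field
with `q` elements such that all `X n = X ⊗ 𝔽_{q^n}` are in the class `G`. By Thomason the conjecture of
Tate for `X` implies the noncommutative conjecture of Tate for `A`. -/
def IsPerfTate {Ω V D : Type} [Field Ω] (T : Homology Ω V) (G : V → Prop) (l : ℕ) [Fact l.Prime]
    (P : D → ℕ → Type) [∀ A n, AddCommGroup (P A n)] (A : D) : Prop :=
  ∃ X : ℕ → V, (∀ n, 1 ≤ n → G (X n)) ∧ (Tate T X → NCTate l (P A))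

end Pool.Agent.R900.PT
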