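import Pool.Agent.R900.PT.Defs

/-!
# The cup product pairing of motivic cohomology: definitions
-/

set_option autoImplicit false

namespace Pool.Agent.R900.PT

open Pool.Agent.W495.FM

/-- The pairing `b` is perfect: it is bilinear, both induced maps to the dual spaces are bijective, and
the spaces are finite-dimensional. -/
structure IsPerfect (K : Type) {A B : Type} [Field K] [AddCommGroup A] [Module K A] [AddCommGroup B]
    [Module K B] (b : A → B → K) : Prop where
  lin_left : ∀ y, IsLin K fun x => b x y
  lin_right : ∀ x, IsLin K (b x)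
  left : ∀ f : B → K, IsLin K f → ∃! x, b x = f
  right : ∀ f : A → K, IsLin K f → ∃! y, (fun x => b x y) = f
  finite_left : FiniteDimensional K A
  finite_right : FiniteDimensional K B

/-- `X` is smooth and projective of pure dimension `d` with the (bilinear) cup product pairings

`b i n : H^i(X, ℚ(n)) × H^(2 d - i)(X, ℚ(d - n)) → ℚ`.

Here `H^i(X, ℚ(n)) = CH^n(X, 2 n - i) ⊗ ℚ` is the group `M X (2 d - i) (d - n)` of the motivic homology.
The `ℓ`-adic homology groups satisfy the Weil conjectures (`IsPure`), and Poincaré duality: there are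
perfect pairings of them, invariant under the Frobenius, which are compatible with `b` and the
regulators. -/
structure IsSmoothProjective {Ω V : Type} [Field Ω] (T : Homology Ω V) (X : V) (d : ℤ)
    (b : ∀ i n : ℤ, T.M X (2 * d - i) (d - n) → T.M X i n → ℚ) : Prop where
  pure : IsPure T X
  left : ∀ i n y, IsLin ℚ fun x => b i n x y
  right : ∀ i n x, IsLin ℚ (b i n x)
  dual : ∀ i n : ℤ, ∃ β : T.E X (2 * d - i) (d - n) → T.E X i n → Ω, IsPerfect Ω β ∧
    (∀ x y, β (T.frob X (2 * d - i) (d - n) x) (T.frob X i n y) = β x y) ∧
    ∀ x y, β (T.reg X (2 * d - i) (d - n) x) (T.reg X i n y) = (b i n x y : Ω)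

end Pool.Agent.R900.PT
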