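import Pool.Agent.R900.PT.Defs

/-!
# Zeta functions and ranks of higher Chow groups: definitions
-/

set_option autoImplicit false

namespace Pool.Agent.R900.PT

open Pool.Agent.W495.FM

/-- `Z` is the zeta function of a scheme with the set `P` of closed points, where the residue field of
`v` has `Q ^ deg v` elements: it is meromorphic on the whole complex plane, and equal to the Euler
product in a half plane. -/
def IsZeta (Q : ℕ) {P : Type} (deg : P → ℕ) (Z : ℂ → ℂ) : Prop :=
  (∀ s, MeromorphicAt Z s) ∧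
    ∃ σ : ℝ, ∀ s : ℂ, σ < s.re → HasProd (fun v => (1 - ((Q : ℂ) ^ deg v) ^ (-s))⁻¹) (Z s)

/-- `P` is the set of the closed points of the scheme `X` of finite type over the field with `Q`
elements, `deg v` is the degree of `v`. The complex numbers `α n k`, `k < r n`, are the images under an
isomorphism of the algebraic closure of `ℚ_ℓ` with `ℂ` of the eigenvalues of the geometric Frobenius on
`H^n_c(X, ℚ_ℓ)` (zero for `n ≥ N`), counted with their multiplicities. They are not zero; by
Grothendieck's trace formula they compute the number of points with coordinates in the field with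
`Q ^ m` elements; and as `E X n j = H_n(X, ℚ_ℓ(j))` is the dual space of `H^n_c(X, ℚ_ℓ(j))`, the
multiplicity of an eigenvalue `c` of the Frobenius on it is the number of the `k` with
`c = Q ^ j / α n k`. -/
structure HasPoints {V : Type} (T : Homology ℂ V) (X : V) (Q : ℕ) {P : Type} (deg : P → ℕ) :
    Prop where
  pos : ∀ v, 0 < deg v
  finite : ∀ m, {v | deg v ≤ m}.Finite
  coh : ∃ (N : ℕ) (r : ℕ → ℕ) (α : ∀ n, Fin (r n) → ℂ), (∀ n k, α n k ≠ 0) ∧
    (∀ m, 0 < m → (∑ᶠ (v : P) (_ : deg v ∣ m), (deg v : ℂ)) =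
      ∑ n ∈ Finset.range N, (-1) ^ n * ∑ k, α n k ^ m) ∧
    (∀ n j : ℤ, n < 0 ∨ (N : ℤ) ≤ n → ∀ e : T.E X n j, e = 0) ∧
    ∀ (n : ℕ) (j : ℤ), ∃ φ : Module.End ℂ (T.E X n j), (∀ e, φ e = T.frob X n j e) ∧
      ∀ c : ℂ, Module.finrank ℂ (φ.maxGenEigenspace c) =
        Nat.card {k : Fin (r n) // c * α n k = (Q : ℂ) ^ j}

/-- The rank of `CH_j(X, i)`. -/
noncomputable def rk {Ω V : Type} [Field Ω] (T : Homology Ω V) (X : V) (j i : ℤ) : ℕ :=
  Module.finrank ℚ (T.M X (i + 2 * j) j)

/-- The groups `CH_j(X, i)` have finite rank, and the rank is zero for all but finitely many `i`. -/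
def HasFiniteRanks {Ω V : Type} [Field Ω] (T : Homology Ω V) (X : V) (j : ℤ) : Prop :=
  (∀ i, FiniteDimensional ℚ (T.M X (i + 2 * j) j)) ∧ {i | rk T X j i ≠ 0}.Finite

/-- The formula of Soulé: the zeta function of `X` extends to a meromorphic function `Z` on the complex
plane, the groups `CH_j(X, i)` have finite ranks, zero for almost all `i`, and the order of `Z` at `j`
is the negative of the alternating sum of the ranks. -/
def SouleFormula {Ω V : Type} [Field Ω] (T : Homology Ω V) (X : V) (Q : ℕ) {P : Type}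
    (deg : P → ℕ) : Prop :=
  (∃ Z, IsZeta Q deg Z) ∧ ∀ Z, IsZeta Q deg Z → ∀ j : ℤ, HasFiniteRanks T X j ∧
    meromorphicOrderAt Z j = ((-∑ᶠ i : ℤ, (i.negOnePow : ℤ) * (rk T X j i : ℤ) : ℤ) : WithTop ℤ)

end Pool.Agent.R900.PT
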