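import Pool.Agent.R900.PT.ZetaDefs

/-!
# Closed points and the eigenvalues of the Frobenius: definitions
-/

set_option autoImplicit false

namespace Pool.Agent.R900.PT

open Pool.Agent.W495.FM

/-- `f` is an endomorphism of the complex vector space, and its eigenvalues `c` have the algebraic
multiplicities `m c`. -/
def HasMult {A : Type} [AddCommGroup A] [Module ℂ A] (f : A → A) (m : ℂ → ℕ) : Prop :=
  ∃ φ : Module.End ℂ A, (∀ e, φ e = f e) ∧ ∀ c, Module.finrank ℂ (φ.maxGenEigenspace c) = m c

/-- `P` is the set of the closed points of the scheme `X` of finite type over the field with `Q`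
elements, `deg v` is the degree of `v`. The complex numbers `α n k`, `k < r n`, are the images under an
isomorphism of the algebraic closure of `ℚ_ℓ` with `ℂ` of the eigenvalues of the geometric Frobenius on
`H^n_c(X, ℚ_ℓ)` (zero for `n ≥ N`), counted with their multiplicities. They are not zero; by
Grothendieck's trace formula they compute the number of points with coordinates in the field with
`Q ^ m` elements; and as `E X n j = H_n(X, ℚ_ℓ(j))` is the dual space of `H^n_c(X, ℚ_ℓ(j))`, the
multiplicity of an eigenvalue `c` of the Frobenius on it is the number of the `k` with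
`c = Q ^ j / α n k`. -/
def HasClosedPoints {V : Type} (T : Homology ℂ V) (X : V) (Q : ℕ) {P : Type} (deg : P → ℕ) : Prop :=
  (∀ v, 0 < deg v) ∧ (∀ m, {v | deg v ≤ m}.Finite) ∧
    ∃ (N : ℕ) (r : ℕ → ℕ) (α : ∀ n, Fin (r n) → ℂ), (∀ n k, α n k ≠ 0) ∧
      (∀ m, 0 < m → (∑ᶠ (v : P) (_ : deg v ∣ m), (deg v : ℂ)) =
        ∑ n ∈ Finset.range N, (-1) ^ n * ∑ k, α n k ^ m) ∧
      (∀ n j : ℤ, n < 0 ∨ (N : ℤ) ≤ n → ∀ e : T.E X n j, e = 0) ∧
      ∀ (n : ℕ) (j : ℤ), HasMult (T.frob X n j) fun c =>
        Nat.card {k : Fin (r n) // c * α n k = (Q : ℂ) ^ j}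

theorem HasClosedPoints.hasPoints {V : Type} {T : Homology ℂ V} {X : V} {Q : ℕ} {P : Type}
    {deg : P → ℕ} (h : HasClosedPoints T X Q deg) : HasPoints T X Q deg :=
  ⟨h.1, h.2.1, h.2.2⟩

end Pool.Agent.R900.PT
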